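import Pool.Agent.Q235.LT.RealErr

/-!
# Approximation of Sobolev functions, and the gradient on the zero set
-/

set_option autoImplicit false

open MeasureTheory Set Filter Topology Real
open scoped Matrix Convolution ContDiff

namespace Pool.Agent.Q235.LT

open LTd

theorem H_approx2 {d n : ℕ} (f : Fin n → (Fin d → ℝ) → ℝ) (g : Fin n → Fin d → (Fin d → ℝ) → ℝ)
    (hf : ∀ i, WGrad (f i) (g i)) :
    ∃ F : ℕ → Fin n → (Fin d → ℝ) → ℝ, (∀ k i, ContDiff ℝ 1 (F k i)) ∧
      (∀ k i, HasCompactSupport (F k i)) ∧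
      (∀ k (v : Fin n → ℝ), ∫ x, (∑ i, v i * F k i x) ^ 2 ≤ ∫ x, (∑ i, v i * f i x) ^ 2) ∧
      (∀ᵐ x, ∀ i, Tendsto (fun k => F k i x) atTop (𝓝 (f i x))) ∧
      (∀ᵐ x, ∀ i j, Tendsto (fun k => pd j (F k i) x) atTop (𝓝 (g i j x))) ∧
      ∀ k : ℕ, ∫ x, ∑ j, ∑ i, pd j (F k i) x ^ 2 ≤
        (∫ x, ∑ j, ∑ i, g i j x ^ 2) + 1 / ((k:ℝ) + 1) := by
  obtain ⟨φ, hφ⟩ := conv_ae (d := d)
  obtain ⟨F0, hF0⟩ : ∃ F0 : ℕ → Fin n → (Fin d → ℝ) → ℝ, F0 = fun k i =>
    ((φ k).normed volume ⋆[ContinuousLinearMap.lsmul ℝ ℝ, volume] (f i)) := ⟨_, rfl⟩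
  have hF0d : ∀ k i, ContDiff ℝ 1 (F0 k i) := by
    intro k i
    rw [hF0]
    exact (conv_diff (φ k) (hf i)).1
  have hpd : ∀ k i j x, pd j (F0 k i) x =
      ((φ k).normed volume ⋆[ContinuousLinearMap.lsmul ℝ ℝ, volume] (g i j)) x := by
    intro k i j x
    rw [hF0]
    exact (conv_diff (φ k) (hf i)).2 j x
  have hI2 : ∀ k i, Integrable fun x => F0 k i x ^ 2 := by
    intro k i
    rw [hF0]
    exact (conv_L2 (φ k) (hf i).f2).2.1
  have hI3 : ∀ k j i, Integrable fun x => pd j (F0 k i) x ^ 2 := by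
    intro k j i
    simp only [hpd]
    exact (conv_L2 (φ k) ((hf i).g2 j)).2.1
  have hcut := fun k : ℕ => cut_energy (F0 k) (hF0d k) (hI2 k) (hI3 k)
    (ε := 1 / ((k:ℝ) + 1)) (by positivity) (k:ℝ)
  choose χ hχ1 hχ2 hχ3 hχ4 hχ5 using hcut
  refine ⟨fun k i y => χ k y * F0 k i y, ?_, ?_, ?_, ?_, ?_, ?_⟩
  · intro k i
    exact (hχ1 k).mul (hF0d k i)
  · intro k i
    exact (hχ2 k).mul_right
  · intro k v
    have hsum2 : MemLp (fun y => ∑ i, v i * f i y) 2 volume :=
      memLp_finsetSum _ (fun i _ => (hf i).f2.const_mul (v i))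
    have hconv := conv_L2 (φ k) hsum2
    have heq : ∀ x, ((φ k).normed volume ⋆[ContinuousLinearMap.lsmul ℝ ℝ, volume]
        fun y => ∑ i, v i * f i y) x = ∑ i, v i * F0 k i x := by
      intro x
      rw [hF0]
      exact conv_sum (φ k) f (fun i => (hf i).f2) v x
    have hint := hconv.2.1
    have hle := hconv.2.2
    simp only [heq] at hint hle
    refine le_trans ?_ hle
    apply integral_mono_of_nonneg
    · exact Eventually.of_forall fun x => sq_nonneg _
    · exact hint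
    · refine Eventually.of_forall fun x => ?_
      simp only
      have e : ∑ i, v i * (χ k x * F0 k i x) = χ k x * ∑ i, v i * F0 k i x := by
        rw [Finset.mul_sum]
        exact Finset.sum_congr rfl fun i _ => by ring
      rw [e, mul_pow]
      have h1 : χ k x ^ 2 ≤ 1 := pow_le_one₀ (hχ3 k x).1 (hχ3 k x).2
      exact mul_le_of_le_one_left (sq_nonneg _) h1
  · have hall : ∀ᵐ x, ∀ i, Tendsto (fun k => F0 k i x) atTop (𝓝 (f i x)) := by
      rw [ae_all_iff]
      intro i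
      rw [hF0]
      exact hφ (f i) (hf i).f2
    filter_upwards [hall] with x hx i
    refine (hx i).congr' ?_
    obtain ⟨N, hN⟩ := exists_nat_ge ‖x‖
    filter_upwards [eventually_ge_atTop N] with k hk
    have hk' : ‖x‖ ≤ (k:ℝ) := le_trans hN (by exact_mod_cast hk)
    rw [hχ4 k x hk', one_mul]
  · have hall : ∀ᵐ x, ∀ i j, Tendsto (fun k => pd j (F0 k i) x) atTop (𝓝 (g i j x)) := by
      rw [ae_all_iff]
      intro i
      rw [ae_all_iff]
      intro j
      simp only [hpd]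
      exact hφ (g i j) ((hf i).g2 j)
    filter_upwards [hall] with x hx i j
    refine (hx i j).congr' ?_
    obtain ⟨N, hN⟩ := exists_nat_gt ‖x‖
    filter_upwards [eventually_ge_atTop N] with k hk
    have hk' : ‖x‖ < (k:ℝ) := lt_of_lt_of_le hN (by exact_mod_cast hk)
    have he : (fun y => χ k y * F0 k i y) =ᶠ[𝓝 x] F0 k i := by
      have ho : {y : Fin d → ℝ | ‖y‖ < (k : ℝ)} ∈ 𝓝 x :=
        (isOpen_lt continuous_norm continuous_const).mem_nhds hk'
      filter_upwards [ho] with y hy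
      rw [hχ4 k y (le_of_lt hy), one_mul]
    unfold pd
    rw [he.fderiv_eq]
  · intro k
    refine le_trans (hχ5 k) ?_
    refine add_le_add ?_ le_rfl
    have hIg : ∀ j i, Integrable fun x => g i j x ^ 2 := fun j i => ((hf i).g2 j).integrable_sq
    rw [integral_finsetSum _ (fun j _ => integrable_finsetSum _ (fun i _ => hI3 k j i)),
      integral_finsetSum _ (fun j _ => integrable_finsetSum _ (fun i _ => hIg j i))]
    refine Finset.sum_le_sum fun j _ => ?_
    rw [integral_finsetSum _ (fun i _ => hI3 k j i), integral_finsetSum _ (fun i _ => hIg j i)]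
    refine Finset.sum_le_sum fun i _ => ?_
    simp only [hpd]
    exact (conv_L2 (φ k) ((hf i).g2 j)).2.2

end Pool.Agent.Q235.LT
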