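import Pool.Agent.Q235.LT.ErrSlice
import Pool.Agent.Helper717.LT.P_core

/-!
# The lifting step for an arbitrary constant in dimension one
-/

set_option autoImplicit false

open MeasureTheory Set Filter Topology Real
open scoped Matrix

namespace Pool.Agent.Q235.LT

open LTd

theorem coreA (m n : ℕ) (w : Fin n → (Fin (m + 1) → ℝ) → ℝ) (hw : ∀ i, ContDiff ℝ 1 (w i))
    (hc : ∀ i, HasCompactSupport (w i)) {a E : ℝ} (ha : 0 < a)
    (hA : a * ∫ x, (RS w x * RS w x * RS w x).trace ≤ (∫ x, (QS w x).trace) + E) :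
    bco (m / 2) (3 / 2) a * ∫ x, (∑ i, w i x ^ 2) ^ pp (3 / 2 + m / 2) ≤
      (∫ x, ∑ k, ∑ i, pd k (w i) x ^ 2) + E := by
  classical
  have hwc : ∀ i, Continuous (w i) := fun i => (hw i).continuous
  have h := slice_sys w hw hc
  set p : ℝ := pp (3 / 2 + m / 2) with hp
  have hp0 : 0 < p := by
    rw [hp, pp]
    have hm : (0 : ℝ) ≤ m := Nat.cast_nonneg m
    apply div_pos <;> linarith
  -- the density
  set F : (Fin (m + 1) → ℝ) → ℝ := fun z => (∑ i, w i z ^ 2) ^ p with hF
  have hFc : Continuous F := by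
    refine Continuous.rpow_const ?_ fun z => Or.inr hp0.le
    exact continuous_finsetSum _ fun i _ => (hwc i).pow 2
  have hFs : HasCompactSupport F := by
    refine cs_fam' w hc F fun z hz => ?_
    show (∑ i, w i z ^ 2) ^ p = 0
    rw [Finset.sum_eq_zero fun i _ => by rw [hz i]; norm_num]
    exact Real.zero_rpow hp0.ne'
  -- the tangential derivatives
  set D : (Fin (m + 1) → ℝ) → ℝ := fun z => ∑ k : Fin m, ∑ i, pd k.succ (w i) z ^ 2 with hD
  have hDc : Continuous D := by
    refine continuous_finsetSum _ fun k _ => continuous_finsetSum _ fun i _ => ?_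
    exact ((pd_basic (hw i) (hc i) k.succ).1).pow 2
  have hDs : HasCompactSupport D := by
    refine cs_fam' (ι := Fin m × Fin n) (fun q => pd q.1.succ (w q.2))
      (fun q => (pd_basic (hw q.2) (hc q.2) q.1.succ).2) D fun z hz => ?_
    refine Finset.sum_eq_zero fun k _ => Finset.sum_eq_zero fun i _ => ?_
    rw [hz (k, i)]
    norm_num
  -- the normal derivatives
  set E : (Fin (m + 1) → ℝ) → ℝ := fun z => ∑ i, pd 0 (w i) z ^ 2 with hE
  have hEc : Continuous E := by
    refine continuous_finsetSum _ fun i _ => ?_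
    exact ((pd_basic (hw i) (hc i) 0).1).pow 2
  have hEs : HasCompactSupport E := by
    refine cs_fam' (fun i => pd 0 (w i)) (fun i => (pd_basic (hw i) (hc i) 0).2) E fun z hz => ?_
    refine Finset.sum_eq_zero fun i _ => ?_
    rw [hz i]
    norm_num
  have hQ : ∫ x, (QS w x).trace = ∫ z, E z := by
    rw [slice_int hEc hEs]
    refine integral_congr_ae (Eventually.of_forall fun x => ?_)
    show (QS w x).trace = ∫ y : Fin m → ℝ, E (Fin.cons x y : Fin (m + 1) → ℝ)
    have h2 : ∀ i, Integrable (fun y : Fin m → ℝ => pd 0 (w i) (Fin.cons x y : Fin (m + 1) → ℝ) ^ 2)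
        volume := by
      intro i
      have h3 := slice_cont (f := fun z => pd 0 (w i) z ^ 2)
        (((pd_basic (hw i) (hc i) 0).1).pow 2)
        (cs_fam' (ι := Unit) (fun _ => pd 0 (w i)) (fun _ => (pd_basic (hw i) (hc i) 0).2) _
          fun z hz => by rw [hz ()]; norm_num)
      exact (h3.2.1 x).integrable_of_hasCompactSupport (h3.2.2.1 x)
    rw [hE]
    dsimp only
    rw [integral_finsetSum _ fun i _ => h2 i, Matrix.trace]
    refine Finset.sum_congr rfl fun i _ => ?_
    rw [Matrix.diag_apply]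
    show ∫ y : Fin m → ℝ, pd 0 (w i) (Fin.cons x y : Fin (m + 1) → ℝ) *
      pd 0 (w i) (Fin.cons x y : Fin (m + 1) → ℝ) = _
    congr 1
    funext y
    ring
  have htr : Integrable (fun x => (RS w x * RS w x * RS w x).trace) volume := by
    have hRc : ∀ i j, Continuous fun x => RS w x i j := fun i j =>
      continuous_iff_continuousAt.2 fun x => (h.der x i j).continuousAt
    have hcont : Continuous fun x => (RS w x * RS w x * RS w x).trace := by
      have hR : Continuous fun x => RS w x := continuous_matrix hRc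
      exact ((hR.matrix_mul hR).matrix_mul hR).matrix_trace
    obtain ⟨M, hM⟩ := h.supp
    refine hcont.integrable_of_hasCompactSupport ?_
    refine HasCompactSupport.intro (isCompact_Icc (a := -M) (b := M)) fun x hx => ?_
    have h2 : M < |x| := by
      by_contra hcon
      push Not at hcon
      exact hx (abs_le.1 hcon)
    rw [(hM x h2).1]
    simp
  -- the slices
  have hslice : ∀ x : ℝ, bco (m / 2) (3 / 2) a *
      ∫ y : Fin m → ℝ, F (Fin.cons x y : Fin (m + 1) → ℝ) ≤
      (∫ y : Fin m → ℝ, D (Fin.cons x y : Fin (m + 1) → ℝ)) +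
        a * (RS w x * RS w x * RS w x).trace := by
    intro x
    obtain ⟨V, r, hV, hV', hr, hR⟩ := specP (sys_psd h x)
    have h1 := T_slice (m := m) (n := n) (g := 3 / 2) (a := a) ha
      (T_all m (3 / 2) le_rfl) (fun i y => w i (Fin.cons x y : Fin (m + 1) → ℝ))
      (fun i => (slice_pd (hw i) x).1) (fun i => (slice_cont (hwc i) (hc i)).2.2.1 x) V r hV hV'
      hR
    have e1 : ∑ i, r i ^ pp (3 / 2) = (RS w x * RS w x * RS w x).trace := by
      have e2 : pp (3 / 2) = ((3 : ℕ) : ℝ) := by
        rw [pp]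
        norm_num
      have e3 : RS w x * RS w x * RS w x = V * Matrix.diagonal (fun i => r i ^ 3) * Vᵀ := by
        have e4 : ∀ X Y : Mat n, (V * X * Vᵀ) * (V * Y * Vᵀ) = V * (X * Y) * Vᵀ := by
          intro X Y
          calc (V * X * Vᵀ) * (V * Y * Vᵀ) = V * X * (Vᵀ * V) * Y * Vᵀ := by
                simp only [Matrix.mul_assoc]
            _ = _ := by rw [hV', Matrix.mul_one]; simp only [Matrix.mul_assoc]
        rw [hR, e4, e4, Matrix.diagonal_mul_diagonal, Matrix.diagonal_mul_diagonal]
        congr 3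
        funext i
        ring
      rw [e3, Matrix.trace_mul_comm, ← Matrix.mul_assoc, hV', Matrix.one_mul,
        Matrix.trace_diagonal]
      refine Finset.sum_congr rfl fun i _ => ?_
      rw [e2, Real.rpow_natCast]
    rw [e1] at h1
    have e5 : ∀ y : Fin m → ℝ, (∑ k, ∑ i, pd k (fun y : Fin m → ℝ =>
        w i (Fin.cons x y : Fin (m + 1) → ℝ)) y ^ 2) = D (Fin.cons x y : Fin (m + 1) → ℝ) := by
      intro y
      refine Finset.sum_congr rfl fun k _ => Finset.sum_congr rfl fun i _ => ?_
      rw [(slice_pd (hw i) x).2 k y]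
    rw [integral_congr_ae (Eventually.of_forall e5)] at h1
    exact h1
  have hint := integral_mono ((slice_integrable' hFc hFs).const_mul _)
    ((slice_integrable' hDc hDs).add (htr.const_mul _)) hslice
  rw [integral_const_mul, ← slice_int hFc hFs] at hint
  have hsum : ∫ x, ((∫ y : Fin m → ℝ, D (Fin.cons x y : Fin (m + 1) → ℝ)) +
        a * (RS w x * RS w x * RS w x).trace) =
      (∫ z, D z) + a * ∫ x, (RS w x * RS w x * RS w x).trace := by
    rw [integral_add (slice_integrable' hDc hDs) (htr.const_mul _), integral_const_mul,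
      ← slice_int hDc hDs]
  have hfin : ∫ x, ∑ k, ∑ i, pd k (w i) x ^ 2 = (∫ z, E z) + ∫ z, D z := by
    rw [← integral_add (hEc.integrable_of_hasCompactSupport hEs)
      (hDc.integrable_of_hasCompactSupport hDs)]
    refine integral_congr_ae (Eventually.of_forall fun z => ?_)
    show ∑ k, ∑ i, pd k (w i) z ^ 2 = (∑ i, pd 0 (w i) z ^ 2) +
      ∑ k : Fin m, ∑ i, pd k.succ (w i) z ^ 2
    rw [Fin.sum_univ_succ]
  rw [hfin]
  have hint' := hint.trans_eq hsum
  rw [hQ] at hA
  linarith

end Pool.Agent.Q235.LT
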