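import Pool.Agent.Q235.LT.RealErr

/-!
# The inequality with a gradient error for complex functions
-/

set_option autoImplicit false

open MeasureTheory Set Filter Topology Real
open scoped Matrix

namespace Pool.Agent.Q235.LT

open LTd

lemma nsq (z : ℂ) : ‖z‖ ^ 2 = z.re ^ 2 + z.im ^ 2 := by
  rw [Complex.sq_norm, Complex.normSq_apply]; ring

lemma pd_re {m : ℕ} {f : (Fin m → ℝ) → ℂ} (hf : ContDiff ℝ 1 f) (k : Fin m) (x : Fin m → ℝ) :
    pd k (fun x => (f x).re) x = (fderiv ℝ f x (Pi.single k 1)).re := by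
  have h1 : HasFDerivAt f (fderiv ℝ f x) x :=
    (hf.differentiable (by norm_num)).differentiableAt.hasFDerivAt
  have h2 : HasFDerivAt (fun x => (f x).re) (Complex.reCLM.comp (fderiv ℝ f x)) x :=
    Complex.reCLM.hasFDerivAt.comp x h1
  unfold pd
  rw [h2.fderiv]
  rfl

lemma pd_im {m : ℕ} {f : (Fin m → ℝ) → ℂ} (hf : ContDiff ℝ 1 f) (k : Fin m) (x : Fin m → ℝ) :
    pd k (fun x => (f x).im) x = (fderiv ℝ f x (Pi.single k 1)).im := by
  have h1 : HasFDerivAt f (fderiv ℝ f x) x :=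
    (hf.differentiable (by norm_num)).differentiableAt.hasFDerivAt
  have h2 : HasFDerivAt (fun x => (f x).im) (Complex.imCLM.comp (fderiv ℝ f x)) x :=
    Complex.imCLM.hasFDerivAt.comp x h1
  unfold pd
  rw [h2.fderiv]
  rfl

/-- The inequality for complex functions. -/
theorem cplx_err {m N M : ℕ} (u : Fin N → (Fin (m + 1) → ℝ) → ℂ) (hu : ∀ n, ContDiff ℝ 1 (u n))
    (hc : ∀ n, HasCompactSupport (u n))
    (ho : ∀ i j, ∫ x, (starRingEnd ℂ) (u i x) * u j x = if i = j then 1 else 0)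
    (g h : Fin M → (Fin (m + 1) → ℝ) → ℂ) (hg : ∀ j, AEStronglyMeasurable (g j) volume)
    (hh : ∀ j, MemLp (h j) 2 volume)
    (hd : ∀ j, ∀ᵐ z, HasDerivAt (fun t : ℝ => g j (Function.update z 0 t)) (h j z) (z 0))
    (hs : ∀ z z' : Fin (m + 1) → ℝ, z 0 = z' 0 →
      ∑ j, g j z * (starRingEnd ℂ) (g j z') = ∑ i, u i z * (starRingEnd ℂ) (u i z'))
    {η : ℝ} (h0 : 0 ≤ η) (h1 : η ≤ 1) :
    ((3 + η) / 4 : ℝ) ^ (1 / ((m : ℝ) + 1)) * Kcl (m + 1) *
        ∫ x, (∑ i, ‖u i x‖ ^ 2) ^ (1 + 2 / ((m + 1 : ℕ) : ℝ)) ≤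
      (∫ x, ∑ k, ∑ i, ‖fderiv ℝ (u i) x (Pi.single k 1)‖ ^ 2) +
        3 * η * ∑ j, ∫ z, ‖h j z‖ ^ 2 := by
  let F : Fin (N + N) → (Fin (m + 1) → ℝ) → ℝ :=
    Fin.append (fun i x => (u i x).re) (fun i x => (u i x).im)
  let G : Fin (M + M) → (Fin (m + 1) → ℝ) → ℝ :=
    Fin.append (fun j x => (g j x).re) (fun j x => (g j x).im)
  let H : Fin (M + M) → (Fin (m + 1) → ℝ) → ℝ :=
    Fin.append (fun j x => (h j x).re) (fun j x => (h j x).im)
  have hFl : ∀ i, F (Fin.castAdd N i) = fun x => (u i x).re := fun i => Fin.append_left _ _ i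
  have hFr : ∀ i, F (Fin.natAdd N i) = fun x => (u i x).im := fun i => Fin.append_right _ _ i
  have hGl : ∀ i, G (Fin.castAdd M i) = fun x => (g i x).re := fun i => Fin.append_left _ _ i
  have hGr : ∀ i, G (Fin.natAdd M i) = fun x => (g i x).im := fun i => Fin.append_right _ _ i
  have hHl : ∀ i, H (Fin.castAdd M i) = fun x => (h i x).re := fun i => Fin.append_left _ _ i
  have hHr : ∀ i, H (Fin.natAdd M i) = fun x => (h i x).im := fun i => Fin.append_right _ _ i
  have hF1 : ∀ i, ContDiff ℝ 1 (F i) := by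
    refine Fin.addCases (fun i => ?_) (fun i => ?_)
    · rw [hFl]
      exact Complex.reCLM.contDiff.comp (hu i)
    · rw [hFr]
      exact Complex.imCLM.contDiff.comp (hu i)
  have hF2 : ∀ i, HasCompactSupport (F i) := by
    refine Fin.addCases (fun i => ?_) (fun i => ?_)
    · rw [hFl]
      exact (hc i).comp_left (g := Complex.re) rfl
    · rw [hFr]
      exact (hc i).comp_left (g := Complex.im) rfl
  have hu2 : ∀ i, MemLp (u i) 2 volume := fun i =>
    (hu i).continuous.memLp_of_hasCompactSupport (hc i)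
  have hGr' : ∀ v : Fin (N + N) → ℝ, ∫ x, (∑ i, v i * F i x) ^ 2 ≤ ∑ i, v i ^ 2 := by
    intro v
    have h1 := gram_complex u hu2 ho (fun i => v (Fin.castAdd N i))
      (fun i => v (Fin.natAdd N i))
    have h2 : ∀ x, ∑ i, v i * F i x = ∑ i : Fin N, (v (Fin.castAdd N i) * (u i x).re +
        v (Fin.natAdd N i) * (u i x).im) := by
      intro x
      rw [Fin.sum_univ_add, Finset.sum_add_distrib]
      simp only [hFl, hFr]
    have h3 : ∑ i, v i ^ 2 = ∑ i : Fin N, (v (Fin.castAdd N i) ^ 2 + v (Fin.natAdd N i) ^ 2) := by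
      rw [Fin.sum_univ_add, Finset.sum_add_distrib]
    simp only [h2]
    rw [h3]
    exact h1
  have hGm : ∀ j, AEStronglyMeasurable (G j) volume := by
    refine Fin.addCases (fun i => ?_) (fun i => ?_)
    · rw [hGl]
      exact Complex.continuous_re.comp_aestronglyMeasurable (hg i)
    · rw [hGr]
      exact Complex.continuous_im.comp_aestronglyMeasurable (hg i)
  have hHm : ∀ j, MemLp (H j) 2 volume := by
    refine Fin.addCases (fun i => ?_) (fun i => ?_)
    · rw [hHl]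
      exact (hh i).re
    · rw [hHr]
      exact (hh i).im
  have hD : ∀ j, LDer (G j) (H j) := by
    refine Fin.addCases (fun i => ?_) (fun i => ?_)
    · rw [hGl, hHl]
      unfold LDer
      filter_upwards [hd i] with z hz
      exact Complex.reCLM.hasFDerivAt.comp_hasDerivAt (z 0) hz
    · rw [hGr, hHr]
      unfold LDer
      filter_upwards [hd i] with z hz
      exact Complex.imCLM.hasFDerivAt.comp_hasDerivAt (z 0) hz
  have hre : ∀ a b : ℂ, (a * (starRingEnd ℂ) b).re = a.re * b.re + a.im * b.im := by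
    intro a b
    simp [Complex.mul_re]
  have hS : ∀ z z' : Fin (m + 1) → ℝ, z 0 = z' 0 →
      ∑ j, G j z * G j z' = ∑ i, F i z * F i z' := by
    intro z z' hz
    have h2 := congrArg Complex.re (hs z z' hz)
    simp only [Complex.re_sum, hre] at h2
    rw [Fin.sum_univ_add, Fin.sum_univ_add, ← Finset.sum_add_distrib, ← Finset.sum_add_distrib]
    simp only [hGl, hGr, hFl, hFr]
    exact h2
  have hR := real_err F hF1 hF2 hGr' G H hGm hHm hD hS h0 h1
  have hFs : ∀ x, ∑ i, F i x ^ 2 = ∑ i, ‖u i x‖ ^ 2 := by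
    intro x
    rw [Fin.sum_univ_add, ← Finset.sum_add_distrib]
    simp only [hFl, hFr, nsq]
  have hPs : ∀ x, ∑ k, ∑ i, pd k (F i) x ^ 2 =
      ∑ k, ∑ i, ‖fderiv ℝ (u i) x (Pi.single k 1)‖ ^ 2 := by
    intro x
    refine Finset.sum_congr rfl fun k _ => ?_
    rw [Fin.sum_univ_add, ← Finset.sum_add_distrib]
    refine Finset.sum_congr rfl fun i _ => ?_
    rw [hFl, hFr, pd_re (hu i), pd_im (hu i), nsq]
  have hHs : ∑ j, ∫ z, H j z ^ 2 = ∑ j, ∫ z, ‖h j z‖ ^ 2 := by
    rw [Fin.sum_univ_add, ← Finset.sum_add_distrib]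
    refine Finset.sum_congr rfl fun j _ => ?_
    simp only [hHl, hHr]
    have i1 : Integrable (fun z => (h j z).re ^ 2) := (hh j).re.integrable_sq
    have i2 : Integrable (fun z => (h j z).im ^ 2) := (hh j).im.integrable_sq
    rw [← integral_add i1 i2]
    refine integral_congr_ae (Eventually.of_forall fun x => ?_)
    show (h j x).re ^ 2 + (h j x).im ^ 2 = ‖h j x‖ ^ 2
    rw [nsq]
  simp only [hFs, hPs, hHs] at hR
  exact hR

/-- The inequality for density matrices with occupation numbers in `[0, 1]`. -/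
theorem cplx_occ {m N M : ℕ} (l : Fin N → ℝ) (hl : ∀ n, 0 ≤ l n) (hl1 : ∀ n, l n ≤ 1)
    (u : Fin N → (Fin (m + 1) → ℝ) → ℂ) (hu : ∀ n, ContDiff ℝ 1 (u n))
    (hc : ∀ n, HasCompactSupport (u n))
    (ho : ∀ i j, ∫ x, (starRingEnd ℂ) (u i x) * u j x = if i = j then 1 else 0)
    (g h : Fin M → (Fin (m + 1) → ℝ) → ℂ) (hg : ∀ j, AEStronglyMeasurable (g j) volume)
    (hh : ∀ j, MemLp (h j) 2 volume)
    (hd : ∀ j, ∀ᵐ z, HasDerivAt (fun t : ℝ => g j (Function.update z 0 t)) (h j z) (z 0))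
    (hs : ∀ z z' : Fin (m + 1) → ℝ, z 0 = z' 0 →
      ∑ j, g j z * (starRingEnd ℂ) (g j z') = ∑ i, l i * (u i z * (starRingEnd ℂ) (u i z')))
    {η : ℝ} (h0 : 0 ≤ η) (h1 : η ≤ 1) :
    ((3 + η) / 4 : ℝ) ^ (1 / ((m : ℝ) + 1)) * Kcl (m + 1) *
        ∫ x, (∑ i, l i * ‖u i x‖ ^ 2) ^ (1 + 2 / ((m + 1 : ℕ) : ℝ)) ≤
      (∫ x, ∑ k, ∑ i, l i * ‖fderiv ℝ (u i) x (Pi.single k 1)‖ ^ 2) +
        3 * η * ∑ j, ∫ z, ‖h j z‖ ^ 2 := by
  let F : Fin (N + N) → (Fin (m + 1) → ℝ) → ℝ :=
    Fin.append (fun i x => √(l i) * (u i x).re) (fun i x => √(l i) * (u i x).im)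
  let G : Fin (M + M) → (Fin (m + 1) → ℝ) → ℝ :=
    Fin.append (fun j x => (g j x).re) (fun j x => (g j x).im)
  let H : Fin (M + M) → (Fin (m + 1) → ℝ) → ℝ :=
    Fin.append (fun j x => (h j x).re) (fun j x => (h j x).im)
  have hFl : ∀ i, F (Fin.castAdd N i) = fun x => √(l i) * (u i x).re :=
    fun i => Fin.append_left _ _ i
  have hFr : ∀ i, F (Fin.natAdd N i) = fun x => √(l i) * (u i x).im :=
    fun i => Fin.append_right _ _ i
  have hGl : ∀ i, G (Fin.castAdd M i) = fun x => (g i x).re := fun i => Fin.append_left _ _ i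
  have hGr : ∀ i, G (Fin.natAdd M i) = fun x => (g i x).im := fun i => Fin.append_right _ _ i
  have hHl : ∀ i, H (Fin.castAdd M i) = fun x => (h i x).re := fun i => Fin.append_left _ _ i
  have hHr : ∀ i, H (Fin.natAdd M i) = fun x => (h i x).im := fun i => Fin.append_right _ _ i
  have hsl : ∀ i, √(l i) * √(l i) = l i := fun i => Real.mul_self_sqrt (hl i)
  have cre : ∀ i, ContDiff ℝ 1 (fun x => (u i x).re) := fun i => Complex.reCLM.contDiff.comp (hu i)
  have cim : ∀ i, ContDiff ℝ 1 (fun x => (u i x).im) := fun i => Complex.imCLM.contDiff.comp (hu i)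
  have hF1 : ∀ i, ContDiff ℝ 1 (F i) := by
    refine Fin.addCases (fun i => ?_) (fun i => ?_)
    · rw [hFl]
      exact contDiff_const.mul (cre i)
    · rw [hFr]
      exact contDiff_const.mul (cim i)
  have hF2 : ∀ i, HasCompactSupport (F i) := by
    refine Fin.addCases (fun i => ?_) (fun i => ?_)
    · rw [hFl]
      exact (hc i).comp_left (g := fun z : ℂ => √(l i) * z.re) (by simp)
    · rw [hFr]
      exact (hc i).comp_left (g := fun z : ℂ => √(l i) * z.im) (by simp)
  have hu2 : ∀ i, MemLp (u i) 2 volume := fun i =>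
    (hu i).continuous.memLp_of_hasCompactSupport (hc i)
  have hGr' : ∀ v : Fin (N + N) → ℝ, ∫ x, (∑ i, v i * F i x) ^ 2 ≤ ∑ i, v i ^ 2 := by
    intro v
    have h1 := gram_complex u hu2 ho (fun i => v (Fin.castAdd N i) * √(l i))
      (fun i => v (Fin.natAdd N i) * √(l i))
    have h2 : ∀ x, ∑ i, v i * F i x = ∑ i : Fin N, (v (Fin.castAdd N i) * √(l i) * (u i x).re +
        v (Fin.natAdd N i) * √(l i) * (u i x).im) := by
      intro x
      rw [Fin.sum_univ_add, Finset.sum_add_distrib]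
      simp only [hFl, hFr, mul_assoc]
    have h3 : ∑ i, v i ^ 2 = ∑ i : Fin N, (v (Fin.castAdd N i) ^ 2 + v (Fin.natAdd N i) ^ 2) := by
      rw [Fin.sum_univ_add, Finset.sum_add_distrib]
    simp only [h2]
    rw [h3]
    refine h1.trans (Finset.sum_le_sum fun i _ => ?_)
    rw [mul_pow, mul_pow, Real.sq_sqrt (hl i)]
    nlinarith [mul_nonneg (sq_nonneg (v (Fin.castAdd N i))) (sub_nonneg.2 (hl1 i)),
      mul_nonneg (sq_nonneg (v (Fin.natAdd N i))) (sub_nonneg.2 (hl1 i))]
  have hGm : ∀ j, AEStronglyMeasurable (G j) volume := by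
    refine Fin.addCases (fun i => ?_) (fun i => ?_)
    · rw [hGl]
      exact Complex.continuous_re.comp_aestronglyMeasurable (hg i)
    · rw [hGr]
      exact Complex.continuous_im.comp_aestronglyMeasurable (hg i)
  have hHm : ∀ j, MemLp (H j) 2 volume := by
    refine Fin.addCases (fun i => ?_) (fun i => ?_)
    · rw [hHl]
      exact (hh i).re
    · rw [hHr]
      exact (hh i).im
  have hD : ∀ j, LDer (G j) (H j) := by
    refine Fin.addCases (fun i => ?_) (fun i => ?_)
    · rw [hGl, hHl]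
      unfold LDer
      filter_upwards [hd i] with z hz
      exact Complex.reCLM.hasFDerivAt.comp_hasDerivAt (z 0) hz
    · rw [hGr, hHr]
      unfold LDer
      filter_upwards [hd i] with z hz
      exact Complex.imCLM.hasFDerivAt.comp_hasDerivAt (z 0) hz
  have hre : ∀ a b : ℂ, (a * (starRingEnd ℂ) b).re = a.re * b.re + a.im * b.im := by
    intro a b
    simp [Complex.mul_re]
  have hS : ∀ z z' : Fin (m + 1) → ℝ, z 0 = z' 0 →
      ∑ j, G j z * G j z' = ∑ i, F i z * F i z' := by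
    intro z z' hz
    have h2 := congrArg Complex.re (hs z z' hz)
    simp only [Complex.re_sum, Complex.re_ofReal_mul, hre] at h2
    rw [Fin.sum_univ_add, Fin.sum_univ_add, ← Finset.sum_add_distrib, ← Finset.sum_add_distrib]
    simp only [hGl, hGr, hFl, hFr]
    rw [h2]
    refine Finset.sum_congr rfl fun i _ => ?_
    have := hsl i
    calc l i * ((u i z).re * (u i z').re + (u i z).im * (u i z').im) =
        (√(l i) * √(l i)) * ((u i z).re * (u i z').re + (u i z).im * (u i z').im) := by rw [this]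
      _ = _ := by ring
  have hR := real_err F hF1 hF2 hGr' G H hGm hHm hD hS h0 h1
  have hFs : ∀ x, ∑ i, F i x ^ 2 = ∑ i, l i * ‖u i x‖ ^ 2 := by
    intro x
    rw [Fin.sum_univ_add, ← Finset.sum_add_distrib]
    simp only [hFl, hFr, nsq]
    refine Finset.sum_congr rfl fun i _ => ?_
    rw [mul_pow, mul_pow, Real.sq_sqrt (hl i)]
    ring
  have hPs : ∀ x, ∑ k, ∑ i, pd k (F i) x ^ 2 =
      ∑ k, ∑ i, l i * ‖fderiv ℝ (u i) x (Pi.single k 1)‖ ^ 2 := by
    intro x
    refine Finset.sum_congr rfl fun k _ => ?_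
    rw [Fin.sum_univ_add, ← Finset.sum_add_distrib]
    refine Finset.sum_congr rfl fun i _ => ?_
    have p1 : pd k (fun x => √(l i) * (u i x).re) x = √(l i) * pd k (fun x => (u i x).re) x := by
      unfold pd
      rw [fderiv_const_mul ((cre i).differentiable (by norm_num) x)]
      rfl
    have p2 : pd k (fun x => √(l i) * (u i x).im) x = √(l i) * pd k (fun x => (u i x).im) x := by
      unfold pd
      rw [fderiv_const_mul ((cim i).differentiable (by norm_num) x)]
      rfl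
    rw [hFl, hFr, p1, p2, pd_re (hu i), pd_im (hu i), nsq, mul_pow, mul_pow, Real.sq_sqrt (hl i)]
    ring
  have hHs : ∑ j, ∫ z, H j z ^ 2 = ∑ j, ∫ z, ‖h j z‖ ^ 2 := by
    rw [Fin.sum_univ_add, ← Finset.sum_add_distrib]
    refine Finset.sum_congr rfl fun j _ => ?_
    simp only [hHl, hHr]
    have i1 : Integrable (fun z => (h j z).re ^ 2) := (hh j).re.integrable_sq
    have i2 : Integrable (fun z => (h j z).im ^ 2) := (hh j).im.integrable_sq
    rw [← integral_add i1 i2]
    refine integral_congr_ae (Eventually.of_forall fun x => ?_)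
    show (h j x).re ^ 2 + (h j x).im ^ 2 = ‖h j x‖ ^ 2
    rw [nsq]
  simp only [hFs, hPs, hHs] at hR
  exact hR

end Pool.Agent.Q235.LT
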