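import Pool.Agent.Q235.LT.Main3

/-!
# The error term of a slice
-/

set_option autoImplicit false

open MeasureTheory Set Filter Topology Real
open scoped Matrix

namespace Pool.Agent.Q235.LT

open LTd

section

variable {Y : Type*} [MeasurableSpace Y] {μ : Measure Y} [SigmaFinite μ] {n M : ℕ}

lemma int_mul {f g : Y → ℝ} (hf : MemLp f 2 μ) (hg : MemLp g 2 μ) :
    Integrable (fun y => f y * g y) μ := by
  have := hf.integrable_mul hg
  exact this

lemma sq_expand (w : Fin n → Y → ℝ) (h : Y → ℝ) (hw : ∀ i, MemLp (w i) 2 μ) (hh : MemLp h 2 μ)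
    (c : Fin n → ℝ) : 0 ≤ (∫ y, h y ^ 2 ∂μ) + 2 * ∑ i, c i * ∫ y, w i y * h y ∂μ +
      ∑ i, ∑ k, c i * (∫ y, w i y * w k y ∂μ) * c k := by
  have h1 : ∀ y, (h y + ∑ i, c i * w i y) ^ 2 =
      (h y ^ 2 + 2 * ∑ i, c i * (w i y * h y)) + ∑ i, ∑ k, c i * c k * (w i y * w k y) := by
    intro y
    have e1 : (∑ i, c i * w i y) ^ 2 = ∑ i, ∑ k, c i * c k * (w i y * w k y) := by
      rw [sq, Finset.sum_mul_sum]
      refine Finset.sum_congr rfl fun i _ => Finset.sum_congr rfl fun k _ => ?_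
      ring
    have e2 : h y * ∑ i, c i * w i y = ∑ i, c i * (w i y * h y) := by
      rw [Finset.mul_sum]
      refine Finset.sum_congr rfl fun i _ => ?_
      ring
    rw [add_sq, e1, mul_assoc, e2]
  have i1 : Integrable (fun y => h y ^ 2) μ := by
    have := int_mul hh hh
    refine this.congr (Eventually.of_forall fun y => ?_)
    simp only
    ring
  have i2 : Integrable (fun y => ∑ i, c i * (w i y * h y)) μ :=
    integrable_finsetSum _ fun i _ => (int_mul (hw i) hh).const_mul _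
  have i3 : Integrable (fun y => ∑ i, ∑ k, c i * c k * (w i y * w k y)) μ :=
    integrable_finsetSum _ fun i _ => integrable_finsetSum _ fun k _ =>
      (int_mul (hw i) (hw k)).const_mul _
  have h2 : 0 ≤ ∫ y, (h y + ∑ i, c i * w i y) ^ 2 ∂μ := integral_nonneg fun y => sq_nonneg _
  simp only [h1] at h2
  have i12 : Integrable (fun y => h y ^ 2 + 2 * ∑ i, c i * (w i y * h y)) μ :=
    i1.add (i2.const_mul 2)
  rw [integral_add i12 i3, integral_add i1 (i2.const_mul 2), integral_const_mul,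
    integral_finsetSum _ fun i _ => (int_mul (hw i) hh).const_mul _,
    integral_finsetSum _ fun i _ => integrable_finsetSum _ fun k _ =>
      (int_mul (hw i) (hw k)).const_mul _] at h2
  have e3 : ∑ i, ∫ y, c i * (w i y * h y) ∂μ = ∑ i, c i * ∫ y, w i y * h y ∂μ :=
    Finset.sum_congr rfl fun i _ => integral_const_mul _ _
  have e4 : ∑ i, ∫ y, ∑ k, c i * c k * (w i y * w k y) ∂μ =
      ∑ i, ∑ k, c i * (∫ y, w i y * w k y ∂μ) * c k := by
    refine Finset.sum_congr rfl fun i _ => ?_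
    rw [integral_finsetSum _ fun k _ => (int_mul (hw i) (hw k)).const_mul _]
    refine Finset.sum_congr rfl fun k _ => ?_
    rw [integral_const_mul]
    ring
  rw [e3, e4] at h2
  exact h2

lemma pair_one {ι : Type*} [Fintype ι] (f f' : ι → Y → ℝ)
    (p q : Y → ℝ) (hp : MemLp p 2 μ) (hq : MemLp q 2 μ) (hf : ∀ i, MemLp (f i) 2 μ)
    (hf' : ∀ i, MemLp (f' i) 2 μ) :
    ∑ i, (∫ y, p y * f i y ∂μ) * (∫ y, q y * f' i y ∂μ) =
      ∫ z, p z.1 * q z.2 * ∑ i, f i z.1 * f' i z.2 ∂(μ.prod μ) := by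
  have h1 : ∀ z : Y × Y, p z.1 * q z.2 * ∑ i, f i z.1 * f' i z.2 =
      ∑ i, (p z.1 * f i z.1) * (q z.2 * f' i z.2) := by
    intro z
    rw [Finset.mul_sum]
    refine Finset.sum_congr rfl fun i _ => ?_
    ring
  simp only [h1]
  rw [integral_finsetSum _ fun i _ => (int_mul hp (hf i)).mul_prod (int_mul hq (hf' i))]
  refine Finset.sum_congr rfl fun i _ => ?_
  exact (integral_prod_mul (fun y => p y * f i y) (fun y => q y * f' i y)).symm

/-- A product of integrals summed against a kernel identity. -/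
lemma pair_sum {ι κ : Type*} [Fintype ι] [Fintype κ] (f f' : ι → Y → ℝ) (g g' : κ → Y → ℝ)
    (p q : Y → ℝ) (hp : MemLp p 2 μ) (hq : MemLp q 2 μ) (hf : ∀ i, MemLp (f i) 2 μ)
    (hf' : ∀ i, MemLp (f' i) 2 μ) (hg : ∀ i, MemLp (g i) 2 μ) (hg' : ∀ i, MemLp (g' i) 2 μ)
    (hid : ∀ᵐ z ∂(μ.prod μ), ∑ i, f i z.1 * f' i z.2 = ∑ k, g k z.1 * g' k z.2) :
    ∑ i, (∫ y, p y * f i y ∂μ) * (∫ y, q y * f' i y ∂μ) =
      ∑ k, (∫ y, p y * g k y ∂μ) * (∫ y, q y * g' k y ∂μ) := by
  rw [pair_one f f' p q hp hq hf hf', pair_one g g' p q hp hq hg hg']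
  refine integral_congr_ae ?_
  filter_upwards [hid] with z hz
  rw [hz]

/-- The error term of a slice. -/
theorem err_at (w w' : Fin n → Y → ℝ) (g h : Fin M → Y → ℝ) (hw : ∀ i, MemLp (w i) 2 μ)
    (hw' : ∀ i, MemLp (w' i) 2 μ) (hg : ∀ j, MemLp (g j) 2 μ) (hh : ∀ j, MemLp (h j) 2 μ)
    (G1 : ∀ᵐ z ∂(μ.prod μ), ∑ j, g j z.1 * g j z.2 = ∑ i, w i z.1 * w i z.2)
    (G2 : ∀ᵐ z ∂(μ.prod μ), ∑ j, (g j z.1 * h j z.2 + h j z.1 * g j z.2) =
      ∑ i, (w i z.1 * w' i z.2 + w' i z.1 * w i z.2)) :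
    ErrAt (Matrix.of fun i k => ∫ y, w i y * w k y ∂μ)
      (Matrix.of fun i k => ∫ y, w' i y * w k y ∂μ) (∑ j, ∫ y, h j y ^ 2 ∂μ) := by
  intro l hl
  set R : Mat n := Matrix.of fun i k => ∫ y, w i y * w k y ∂μ with hR
  set S : Mat n := Matrix.of fun i k => ∫ y, w' i y * w k y ∂μ with hS
  set C : Matrix (Fin n) (Fin M) ℝ := Matrix.of fun i j => ∫ y, w i y * g j y ∂μ with hC
  set D : Matrix (Fin n) (Fin M) ℝ := Matrix.of fun i j => ∫ y, w i y * h j y ∂μ with hD
  set c : Matrix (Fin n) (Fin M) ℝ := (1 / 2 : ℝ) • (l * C) with hc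
  have hRt : Rᵀ = R := by
    ext i k
    simp only [hR, Matrix.transpose_apply, Matrix.of_apply]
    congr 1
    funext y
    ring
  -- CCᵀ = R²
  have hCC : C * Cᵀ = R * R := by
    ext i k
    rw [Matrix.mul_apply, Matrix.mul_apply]
    simp only [Matrix.transpose_apply, hC, hR, Matrix.of_apply]
    have := pair_sum (μ := μ) g g w w (w i) (w k) (hw i) (hw k) hg hg hw hw G1
    rw [this]
    refine Finset.sum_congr rfl fun a _ => ?_
    congr 2
    funext y
    ring
  have hCD : C * Dᵀ + D * Cᵀ = R * S + Sᵀ * R := by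
    ext i k
    rw [Matrix.add_apply, Matrix.add_apply, Matrix.mul_apply, Matrix.mul_apply, Matrix.mul_apply,
      Matrix.mul_apply]
    simp only [Matrix.transpose_apply, hC, hD, hR, hS, Matrix.of_apply]
    have h1 := pair_sum (μ := μ) (Sum.elim g h) (Sum.elim h g) (Sum.elim w w') (Sum.elim w' w)
      (w i) (w k) (hw i) (hw k) (by rintro (j | j); exacts [hg j, hh j])
      (by rintro (j | j); exacts [hh j, hg j]) (by rintro (j | j); exacts [hw j, hw' j])
      (by rintro (j | j); exacts [hw' j, hw j]) (by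
        filter_upwards [G2] with z hz
        rw [Fintype.sum_sum_type, Fintype.sum_sum_type]
        simp only [Sum.elim_inl, Sum.elim_inr]
        rw [← Finset.sum_add_distrib, ← Finset.sum_add_distrib]
        exact hz)
    rw [Fintype.sum_sum_type, Fintype.sum_sum_type] at h1
    simp only [Sum.elim_inl, Sum.elim_inr] at h1
    rw [h1]
    congr 1
    · refine Finset.sum_congr rfl fun a _ => ?_
      congr 1
      congr 1
      funext y
      ring
    · refine Finset.sum_congr rfl fun a _ => ?_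
      congr 1
      · congr 1
        funext y
        ring
      · congr 1
        funext y
        ring
  have h1 : ∀ j, 0 ≤ (∫ y, h j y ^ 2 ∂μ) + 2 * ∑ i, c i j * D i j +
      ∑ i, ∑ k, c i j * R i k * c k j := by
    intro j
    exact sq_expand w (h j) hw (hh j) (fun i => c i j)
  have h2 := Finset.sum_nonneg fun j (_ : j ∈ Finset.univ) => h1 j
  rw [Finset.sum_add_distrib, Finset.sum_add_distrib, ← Finset.mul_sum] at h2
  have e1 : ∑ j, ∑ i, c i j * D i j = (cᵀ * D).trace := by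
    simp only [Matrix.trace, Matrix.diag_apply, Matrix.mul_apply, Matrix.transpose_apply]
  have e2 : ∑ j, ∑ i, ∑ k, c i j * R i k * c k j = (cᵀ * R * c).trace := by
    simp only [Matrix.trace, Matrix.diag_apply, Matrix.mul_apply, Matrix.transpose_apply,
      Finset.sum_mul]
    refine Finset.sum_congr rfl fun j _ => ?_
    rw [Finset.sum_comm]
  rw [e1, e2] at h2
  have hct : cᵀ = (1 / 2 : ℝ) • (Cᵀ * l) := by
    rw [hc, Matrix.transpose_smul, Matrix.transpose_mul, hl]
  have e3 : 2 * (2 * (cᵀ * D).trace) = 2 * (S * l * R).trace := by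
    have a1 : (cᵀ * D).trace = 1 / 2 * (l * (D * Cᵀ)).trace := by
      rw [hct, Matrix.smul_mul, Matrix.trace_smul, smul_eq_mul, Matrix.mul_assoc,
        Matrix.trace_mul_comm, Matrix.mul_assoc]
    have a2 : (l * (D * Cᵀ)).trace = (l * (C * Dᵀ)).trace := by
      rw [← Matrix.trace_transpose, Matrix.transpose_mul, Matrix.transpose_mul,
        Matrix.transpose_transpose, hl, Matrix.trace_mul_comm]
    have a3 : (l * (C * Dᵀ)).trace + (l * (D * Cᵀ)).trace = (l * (R * S)).trace +
        (l * (Sᵀ * R)).trace := by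
      rw [← Matrix.trace_add, ← Matrix.trace_add, ← Matrix.mul_add, ← Matrix.mul_add, hCD]
    have a4 : (l * (R * S)).trace = (S * l * R).trace := by
      rw [← Matrix.mul_assoc, Matrix.trace_mul_comm, Matrix.mul_assoc]
    have a5 : (l * (Sᵀ * R)).trace = (S * l * R).trace := by
      rw [← Matrix.trace_transpose, Matrix.transpose_mul, Matrix.transpose_mul,
        Matrix.transpose_transpose, hl, hRt, Matrix.mul_assoc, Matrix.trace_mul_comm]
    linarith
  have e4 : (cᵀ * R * c).trace = 1 / 4 * (R * l * R * l * R).trace := by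
    have a1 : cᵀ * R * c = (1 / 4 : ℝ) • (Cᵀ * (l * R * l * C)) := by
      rw [hct, hc, Matrix.smul_mul, Matrix.smul_mul, Matrix.mul_smul, smul_smul]
      norm_num
      simp only [Matrix.mul_assoc]
    rw [a1, Matrix.trace_smul, smul_eq_mul, Matrix.trace_mul_comm]
    congr 1
    calc (l * R * l * C * Cᵀ).trace = (l * R * l * (C * Cᵀ)).trace := by
          simp only [Matrix.mul_assoc]
      _ = (l * R * l * R * R).trace := by rw [hCC, ← Matrix.mul_assoc]
      _ = (R * (l * R * l * R)).trace := Matrix.trace_mul_comm _ _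
      _ = _ := by simp only [Matrix.mul_assoc]
  rw [e4] at h2
  linarith

end

end Pool.Agent.Q235.LT
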