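import Pool.Agent.Q235.LT.SechInt

/-!
# The integral of `(x / sinh x) ^ 2` and the mixed integral
-/

set_option autoImplicit false

open MeasureTheory Set Filter Topology Real

namespace Pool.Agent.Q235.LT

open Pool.Helper490.Sech

lemma sh_of_pos {a : ℝ} (h : 0 < a) : sh a = a / sinh a := by rw [sh, if_neg h.ne']

lemma sh_le_one (a : ℝ) : sh a ≤ 1 := by
  rw [← sh_abs]
  rcases (abs_nonneg a).eq_or_lt with h | h
  · rw [← h]; simp [sh]
  · rw [sh_of_pos h, div_le_one (sinh_pos_iff.2 h)]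
    exact self_le_sinh_iff.2 h.le

lemma int_sh_sq : Integrable (fun a => sh a ^ 2) := by
  refine int_sh.mono' (int_sh.aestronglyMeasurable.pow 2) (Eventually.of_forall fun a => ?_)
  have h1 := sh_nonneg a
  have h2 := sh_le_one a
  rw [Real.norm_eq_abs, abs_of_nonneg (by positivity)]
  nlinarith

lemma int_ac_sq : Integrable (fun a => (a / cosh a) ^ 2) := by
  have hc : Continuous fun a => (a / cosh a) ^ 2 :=
    (continuous_id.div continuous_cosh fun x => (cosh_pos x).ne').pow 2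
  refine int_sh_sq.mono' hc.aestronglyMeasurable (Eventually.of_forall fun a => ?_)
  rw [Real.norm_eq_abs, abs_of_nonneg (by positivity)]
  have h3 : |a / cosh a| ≤ sh a := by
    rw [← sh_abs, abs_div, abs_of_pos (cosh_pos a)]
    rcases (abs_nonneg a).eq_or_lt with h | h
    · rw [← h]; simp [sh]
    · rw [sh_of_pos h]
      refine div_le_div_of_nonneg_left h.le (sinh_pos_iff.2 h) ?_
      rw [← cosh_abs a]
      exact (sinh_lt_cosh _).le
  have h4 : (a / cosh a) ^ 2 = |a / cosh a| ^ 2 := (sq_abs _).symm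
  rw [h4]
  exact pow_le_pow_left₀ (abs_nonneg _) h3 2

lemma G_deriv {a : ℝ} (h : 0 < a) :
    HasDerivAt (fun a => a * sh (2 * a)) (2 * sh (2 * a) - (sh a ^ 2 + (a / cosh a) ^ 2)) a := by
  have h1 : (fun a => a * sh (2 * a)) =ᶠ[𝓝 a] fun a => 2 * a ^ 2 / sinh (2 * a) := by
    filter_upwards [lt_mem_nhds h] with b hb
    rw [sh_of_pos (by positivity)]
    ring
  have h2a : HasDerivAt (fun a : ℝ => 2 * a) 2 a := by
    simpa using (hasDerivAt_id a).const_mul 2
  have h3 : HasDerivAt (fun a : ℝ => sinh (2 * a)) (cosh (2 * a) * 2) a :=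
    (hasDerivAt_sinh (2 * a)).comp a h2a
  have h4 : HasDerivAt (fun a : ℝ => 2 * a ^ 2) (4 * a) a := by
    have := (hasDerivAt_pow 2 a).const_mul 2
    refine this.congr_deriv ?_
    norm_num
    ring
  have hs : sinh (2 * a) ≠ 0 := (sinh_pos_iff.2 (by positivity)).ne'
  refine ((h4.div h3 hs).congr_of_eventuallyEq h1).congr_deriv ?_
  rw [sh_of_pos h, sh_of_pos (by positivity : 0 < 2 * a), sinh_two_mul, cosh_two_mul]
  have h5 : sinh a ≠ 0 := (sinh_pos_iff.2 h).ne'
  have h6 : cosh a ≠ 0 := (cosh_pos a).ne'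
  field_simp
  ring

lemma G_top : Tendsto (fun a => a * sh (2 * a)) atTop (𝓝 0) := by
  have h1 : Tendsto (fun a : ℝ => 2 / a) atTop (𝓝 0) := tendsto_const_nhds.div_atTop tendsto_id
  refine squeeze_zero' ?_ ?_ h1
  · filter_upwards [eventually_ge_atTop 0] with a ha
    exact mul_nonneg ha (sh_nonneg _)
  · filter_upwards [eventually_gt_atTop 0] with a ha
    rw [sh_of_pos (by positivity)]
    have h2 : a ^ 3 ≤ sinh (2 * a) := by
      rw [sinh_two_mul]
      have h3 := cosh_lb a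
      have h4 : a ≤ sinh a := self_le_sinh_iff.2 ha.le
      have h5 : 0 < sinh a := sinh_pos_iff.2 ha
      nlinarith [mul_le_mul h4 h3 (by positivity) h5.le]
    have h3 : 0 < sinh (2 * a) := sinh_pos_iff.2 (by positivity)
    rw [← mul_div_assoc, div_le_div_iff₀ h3 ha]
    nlinarith

lemma G_zero : ContinuousWithinAt (fun a => a * sh (2 * a)) (Ici 0) 0 := by
  have h0 : (0:ℝ) * sh (2 * 0) = 0 := zero_mul _
  unfold ContinuousWithinAt
  simp only [h0]
  have h1 : Tendsto (fun a : ℝ => |a|) (𝓝[Ici 0] 0) (𝓝 0) := by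
    have : Tendsto (fun a : ℝ => |a|) (𝓝 0) (𝓝 |0|) := continuous_abs.tendsto 0
    rw [abs_zero] at this
    exact this.mono_left nhdsWithin_le_nhds
  refine squeeze_zero_norm (fun a => ?_) h1
  rw [norm_mul, Real.norm_eq_abs, Real.norm_eq_abs, abs_of_nonneg (sh_nonneg _)]
  have := sh_le_one (2 * a)
  nlinarith [abs_nonneg a]

lemma int_sh_two : Integrable (fun a => sh (2 * a)) := int_sh.comp_mul_left' (by norm_num)

lemma integral_sh_two : ∫ a in Ioi (0:ℝ), sh (2 * a) = π ^ 2 / 8 := by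
  rw [integral_comp_mul_left_Ioi sh 0 (by norm_num : (0:ℝ) < 2), mul_zero, integral_sh_Ioi,
    smul_eq_mul]
  ring

lemma J_add : (∫ a in Ioi (0:ℝ), sh a ^ 2) + ∫ a in Ioi (0:ℝ), (a / cosh a) ^ 2 = π ^ 2 / 4 := by
  have i1 := (int_sh_two.const_mul 2).integrableOn (s := Ioi (0:ℝ))
  have i2 := int_sh_sq.integrableOn (s := Ioi (0:ℝ))
  have i3 := int_ac_sq.integrableOn (s := Ioi (0:ℝ))
  have i23 : IntegrableOn (fun a => sh a ^ 2 + (a / cosh a) ^ 2) (Ioi (0:ℝ)) := i2.add i3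
  have h := integral_Ioi_of_hasDerivAt_of_tendsto G_zero (fun a ha => G_deriv ha)
    (i1.sub i23) G_top
  rw [integral_sub i1 i23, integral_const_mul, integral_sh_two,
    integral_add i2 i3, zero_mul] at h
  linarith

lemma J_sub : (∫ a in Ioi (0:ℝ), sh a ^ 2) - ∫ a in Ioi (0:ℝ), (a / cosh a) ^ 2 =
    1 / 2 * ∫ a in Ioi (0:ℝ), sh a ^ 2 := by
  have i2 := int_sh_sq.integrableOn (s := Ioi (0:ℝ))
  have i3 := int_ac_sq.integrableOn (s := Ioi (0:ℝ))
  have h1 := integral_comp_mul_left_Ioi (fun a => sh a ^ 2) 0 (by norm_num : (0:ℝ) < 2)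
  rw [mul_zero, smul_eq_mul] at h1
  have h2 : ∫ a in Ioi (0:ℝ), sh (2 * a) ^ 2 =
      ∫ a in Ioi (0:ℝ), (sh a ^ 2 - (a / cosh a) ^ 2) := by
    refine setIntegral_congr_fun measurableSet_Ioi fun a ha => ?_
    have ha' : 0 < a := ha
    rw [sh_of_pos ha', sh_of_pos (by positivity : 0 < 2 * a), sinh_two_mul]
    have h5 : sinh a ≠ 0 := (sinh_pos_iff.2 ha').ne'
    have h6 : cosh a ≠ 0 := (cosh_pos a).ne'
    have h7 := cosh_sq a
    field_simp
    rw [h7]
    ring
  rw [integral_sub i2 i3] at h2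
  rw [← h2, h1]
  norm_num

/-- `∫ (a / sinh a) ^ 2 = π ^ 2 / 3`. -/
lemma integral_sh_sq : ∫ a, sh a ^ 2 = π ^ 2 / 3 := by
  have h1 := integral_comp_abs (f := fun a => sh a ^ 2)
  simp only [sh_abs] at h1
  have h2 := J_add
  have h3 := J_sub
  linarith

/-- `phi b a = cosh b / cosh (a - b)`. -/
noncomputable def phi (b a : ℝ) : ℝ := cosh b * (cosh (a - b))⁻¹

lemma phi_cont (b : ℝ) : Continuous (phi b) :=
  continuous_const.mul ((continuous_cosh.comp (continuous_sub_right b)).inv₀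
    fun x => (cosh_pos _).ne')

lemma int_phi_phi (b c : ℝ) : Integrable (fun a => phi b a * phi c a) ∧
    ∫ a, phi b a * phi c a = 2 * (cosh b * cosh c * sh (b - c)) := by
  have h1 : ∀ a, phi b a * phi c a =
      cosh b * cosh c * ((cosh (a - b))⁻¹ * (cosh (a - b - (c - b)))⁻¹) := by
    intro a
    rw [phi, phi, show a - b - (c - b) = a - c by ring]
    ring
  simp only [h1]
  constructor
  · exact ((int_ss (c - b)).comp_sub_right b).const_mul _
  · rw [integral_const_mul, integral_sub_right_eq_self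
      (fun a => (cosh a)⁻¹ * (cosh (a - (c - b)))⁻¹) b, ss_eq, ← sh_even,
      show -(c - b) = b - c by ring]
    ring

lemma int_id_ss (b : ℝ) : Integrable (fun a => a * ((cosh a)⁻¹ * (cosh (a - b))⁻¹)) := by
  have hc : Continuous fun a => a * ((cosh a)⁻¹ * (cosh (a - b))⁻¹) :=
    continuous_id.mul ((continuous_cosh.inv₀ fun x => (cosh_pos x).ne').mul
      ((continuous_cosh.comp (continuous_sub_right b)).inv₀ fun x => (cosh_pos _).ne'))
  refine int_sh.mono' hc.aestronglyMeasurable (Eventually.of_forall fun a => ?_)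
  have h2 : 0 < cosh a := cosh_pos a
  have h3 : (cosh (a - b))⁻¹ ≤ 1 := inv_le_one_of_one_le₀ (one_le_cosh _)
  have h4 : 0 < (cosh (a - b))⁻¹ := inv_pos.2 (cosh_pos _)
  have h5 : |a| * (cosh a)⁻¹ ≤ sh a := by
    rw [← sh_abs, ← div_eq_mul_inv]
    rcases (abs_nonneg a).eq_or_lt with h | h
    · rw [← h]; simp [sh]
    · rw [sh_of_pos h]
      refine div_le_div_of_nonneg_left h.le (sinh_pos_iff.2 h) ?_
      rw [← cosh_abs a]
      exact (sinh_lt_cosh _).le
  have h6 : 0 ≤ |a| * (cosh a)⁻¹ := by positivity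
  have h7 : |a * ((cosh a)⁻¹ * (cosh (a - b))⁻¹)| = |a| * (cosh a)⁻¹ * (cosh (a - b))⁻¹ := by
    rw [abs_mul, abs_mul, abs_of_pos (inv_pos.2 h2), abs_of_pos h4]
    ring
  rw [Real.norm_eq_abs, h7]
  nlinarith

lemma integral_id_ss (b : ℝ) :
    sinh b * ∫ a, a * ((cosh a)⁻¹ * (cosh (a - b))⁻¹) = b ^ 2 := by
  have h1 := integral_sub_left_eq_self (fun a => a * ((cosh a)⁻¹ * (cosh (a - b))⁻¹)) volume b
  have h2 : ∀ a, (b - a) * ((cosh (b - a))⁻¹ * (cosh (b - a - b))⁻¹) =
      b * ((cosh a)⁻¹ * (cosh (a - b))⁻¹) - a * ((cosh a)⁻¹ * (cosh (a - b))⁻¹) := by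
    intro a
    rw [show b - a - b = -a by ring, cosh_neg, show b - a = -(a - b) by ring, cosh_neg]
    ring
  simp only [h2] at h1
  rw [integral_sub ((int_ss b).const_mul b) (int_id_ss b), integral_const_mul] at h1
  have h3 := sinh_mul_ss b
  have h4 : sinh b * (b * ∫ a, (cosh a)⁻¹ * (cosh (a - b))⁻¹) = 2 * b ^ 2 := by
    rw [mul_left_comm, h3]; ring
  have h5 : b * (∫ a, (cosh a)⁻¹ * (cosh (a - b))⁻¹) =
      2 * ∫ a, a * ((cosh a)⁻¹ * (cosh (a - b))⁻¹) := by linarith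
  rw [h5] at h4
  have h6 : sinh b * (2 * ∫ a, a * ((cosh a)⁻¹ * (cosh (a - b))⁻¹)) =
      2 * (sinh b * ∫ a, a * ((cosh a)⁻¹ * (cosh (a - b))⁻¹)) := by ring
  linarith

lemma phi_sh (b : ℝ) {a : ℝ} (ha : a ≠ 0) : phi b a * sh a =
    sh (2 * a) + sinh b * (a * ((cosh a)⁻¹ * (cosh (a - b))⁻¹)) := by
  have h1 : sinh a ≠ 0 := sinh_ne ha
  have h2 : cosh a ≠ 0 := (cosh_pos a).ne'
  have h3 : cosh (a - b) ≠ 0 := (cosh_pos _).ne'
  rw [phi, sh, sh, if_neg ha, if_neg (by simpa using ha), sinh_two_mul]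
  have h4 : cosh b = cosh a * cosh (a - b) - sinh a * sinh (a - b) := by
    rw [← cosh_sub]; ring_nf
  have h5 : sinh b = sinh a * cosh (a - b) - cosh a * sinh (a - b) := by
    rw [← sinh_sub]; ring_nf
  have h6 := cosh_sq a
  rw [h4, h5]
  field_simp
  linear_combination (cosh (a - b)) * h6

lemma int_phi_sh (b : ℝ) : Integrable (fun a => phi b a * sh a) ∧
    ∫ a, phi b a * sh a = b ^ 2 + π ^ 2 / 4 := by
  have hae : (fun a => phi b a * sh a) =ᵐ[volume]
      fun a => sh (2 * a) + sinh b * (a * ((cosh a)⁻¹ * (cosh (a - b))⁻¹)) := by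
    have : ∀ᵐ a : ℝ, a ≠ 0 := by
      simp [ae_iff, measure_singleton]
    filter_upwards [this] with a ha
    exact phi_sh b ha
  have i1 := int_sh_two
  have i2 := (int_id_ss b).const_mul (sinh b)
  constructor
  · exact (i1.add i2).congr hae.symm
  · rw [integral_congr_ae hae, integral_add i1 i2, integral_const_mul, integral_id_ss]
    have h3 : ∫ a, sh (2 * a) = π ^ 2 / 4 := by
      have h1 := integral_comp_abs (f := fun a => sh (2 * a))
      have h2 : ∀ a, sh (2 * |a|) = sh (2 * a) := by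
        intro a
        rw [← sh_abs (2 * a), abs_mul, abs_two]
      simp only [h2, integral_sh_two] at h1
      linarith
    rw [h3]
    ring

/-- The kernel. -/
noncomputable def Ker (b c : ℝ) : ℝ :=
  4 * (cosh b * cosh c * sh (b - c)) - 2 * b ^ 2 - 2 * c ^ 2 - π ^ 2 / 3

lemma int_ker (b c : ℝ) : Integrable (fun a => (phi b a - sh a) * (phi c a - sh a)) ∧
    ∫ a, (phi b a - sh a) * (phi c a - sh a) = 1 / 2 * Ker b c := by
  have h1 : ∀ a, (phi b a - sh a) * (phi c a - sh a) =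
      (phi b a * phi c a - phi b a * sh a) - (phi c a * sh a - sh a ^ 2) := by
    intro a; ring
  simp only [h1]
  have i1 := int_phi_phi b c
  have i2 := int_phi_sh b
  have i3 := int_phi_sh c
  have i4 := int_sh_sq
  have j1 : Integrable (fun a => phi b a * phi c a - phi b a * sh a) := i1.1.sub i2.1
  have j2 : Integrable (fun a => phi c a * sh a - sh a ^ 2) := i3.1.sub i4
  refine ⟨j1.sub j2, ?_⟩
  rw [integral_sub j1 j2, integral_sub i1.1 i2.1, integral_sub i3.1 i4,
    i1.2, i2.2, i3.2, integral_sh_sq, Ker]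
  ring

end Pool.Agent.Q235.LT
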