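import Pool.Agent.Q235.LT.ZeroSet
import Pool.Agent.Q235.LT.CplxErr
import Pool.Agent.Helper717.LT.One

/-!
# Dimension one: the inequality for all Sobolev functions
-/

set_option autoImplicit false

open MeasureTheory Set Filter Topology Real
open scoped Matrix Convolution ContDiff ENNReal

namespace Pool.Agent.Q235.LT

open LTd

lemma wgrad_c1 {d : ℕ} {F : (Fin d → ℝ) → ℝ} (hF : ContDiff ℝ 1 F) (hFc : HasCompactSupport F) :
    WGrad F (fun j => pd j F) := by
  refine ⟨hF.continuous.memLp_of_hasCompactSupport hFc, fun k =>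
    (pd_basic hF hFc k).1.memLp_of_hasCompactSupport (pd_basic hF hFc k).2, ?_⟩
  intro k φ hφ hφc
  have hφ1 : ContDiff ℝ 1 φ := hφ.of_le (by exact_mod_cast le_top)
  exact integral_mul_fderiv_eq_neg_fderiv_mul_of_integrable (μ := volume)
    (f := F) (g := φ) (v := Pi.single k 1)
    (((pd_basic hF hFc k).1.mul hφ1.continuous).integrable_of_hasCompactSupport hφc.mul_left)
    ((hF.continuous.mul (pd_basic hφ1 hφc k).1).integrable_of_hasCompactSupport hFc.mul_right)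
    ((hF.continuous.mul hφ1.continuous).integrable_of_hasCompactSupport hFc.mul_right)
    (fun x _ => (hF.differentiable (by norm_num)).differentiableAt)
    (fun x _ => (hφ1.differentiable (by norm_num)).differentiableAt)

lemma der_upd {m : ℕ} {f : (Fin (m + 1) → ℝ) → ℝ} (hf : ContDiff ℝ 1 f)
    (z : Fin (m + 1) → ℝ) : HasDerivAt (fun t : ℝ => f (Function.update z 0 t)) (pd 0 f z) (z 0) := by
  have h1 : HasDerivAt (fun t : ℝ => Function.update z 0 t) (Pi.single 0 1 : Fin (m + 1) → ℝ)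
      (z 0) := hasDerivAt_update z 0 (z 0)
  have h2 : HasFDerivAt f (fderiv ℝ f z) (Function.update z 0 (z 0)) := by
    rw [Function.update_eq_self]
    exact (hf.differentiable (by norm_num)).differentiableAt.hasFDerivAt
  exact h2.comp_hasDerivAt (z 0) h1

lemma cs_div {n : ℕ} (a b : Fin n → ℝ) : (∑ i, a i * b i) ^ 2 / ∑ i, a i ^ 2 ≤ ∑ i, b i ^ 2 := by
  have h1 : (∑ i, a i * b i) ^ 2 ≤ (∑ i, a i ^ 2) * ∑ i, b i ^ 2 :=
    Finset.sum_mul_sq_le_sq_mul_sq _ _ _
  have h0 : 0 ≤ ∑ i, a i ^ 2 := Finset.sum_nonneg fun i _ => sq_nonneg _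
  exact div_le_of_le_mul₀ h0 (Finset.sum_nonneg fun i _ => sq_nonneg _) (by rwa [mul_comm])

lemma sqrt_der {n m : ℕ} {F : Fin n → (Fin (m + 1) → ℝ) → ℝ} (hF : ∀ i, ContDiff ℝ 1 (F i))
    (z : Fin (m + 1) → ℝ) (hz : ∀ i, F i z = 0 → pd 0 (F i) z = 0) :
    HasDerivAt (fun t : ℝ => √(∑ i, F i (Function.update z 0 t) ^ 2))
      ((∑ i, F i z * pd 0 (F i) z) / √(∑ i, F i z ^ 2)) (z 0) := by
  by_cases h0 : ∑ i, F i z ^ 2 = 0
  · have h1 : ∀ i, F i z = 0 := by
      intro i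
      have := (Finset.sum_eq_zero_iff_of_nonneg (fun i _ => sq_nonneg (F i z))).1 h0 i
        (Finset.mem_univ i)
      exact pow_eq_zero_iff (two_ne_zero) |>.1 this
    rw [h0, Real.sqrt_zero, div_zero, hasDerivAt_iff_isLittleO]
    simp only [Function.update_eq_self, h0, Real.sqrt_zero, sub_zero, smul_zero]
    have h2 : ∀ i, (fun t : ℝ => F i (Function.update z 0 t)) =o[𝓝 (z 0)]
        fun t => t - z 0 := by
      intro i
      have h3 := der_upd (hF i) z
      rw [hz i (h1 i), hasDerivAt_iff_isLittleO] at h3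
      simpa only [Function.update_eq_self, h1 i, sub_zero, smul_zero] using h3
    have h4 : (fun t : ℝ => ∑ i, ‖F i (Function.update z 0 t)‖) =o[𝓝 (z 0)]
        fun t => t - z 0 :=
      Asymptotics.IsLittleO.fun_sum fun i _ => (h2 i).norm_left
    refine Asymptotics.IsBigO.trans_isLittleO ?_ h4
    refine Asymptotics.IsBigO.of_bound 1 (Eventually.of_forall fun t => ?_)
    rw [one_mul, Real.norm_of_nonneg (Real.sqrt_nonneg _),
      Real.norm_of_nonneg (Finset.sum_nonneg fun i _ => norm_nonneg _)]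
    refine Real.sqrt_le_iff.2 ⟨Finset.sum_nonneg fun i _ => norm_nonneg _, ?_⟩
    refine le_trans (le_of_eq ?_) (Finset.sum_sq_le_sq_sum_of_nonneg fun i _ => norm_nonneg _)
    exact Finset.sum_congr rfl fun i _ => by rw [Real.norm_eq_abs, sq_abs]
  · have h1 : HasDerivAt (fun t : ℝ => ∑ i, F i (Function.update z 0 t) ^ 2)
        (∑ i, (2 : ℕ) * F i (Function.update z 0 (z 0)) ^ (2 - 1) * pd 0 (F i) z) (z 0) :=
      HasDerivAt.fun_sum fun i _ => (der_upd (hF i) z).fun_pow 2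
    have h2 := h1.sqrt (by rw [Function.update_eq_self]; exact h0)
    rw [Function.update_eq_self] at h2
    convert h2 using 1
    have h3 : ∑ i, (2 : ℕ) * F i z ^ (2 - 1) * pd 0 (F i) z = 2 * ∑ i, F i z * pd 0 (F i) z := by
      rw [Finset.mul_sum]
      refine Finset.sum_congr rfl fun i _ => ?_
      norm_num
      ring
    rw [h3, mul_div_mul_left _ _ (two_ne_zero)]

/-- The inequality in dimension one for compactly supported functions. -/
theorem one_c1 {n : ℕ} (F : Fin n → (Fin 1 → ℝ) → ℝ) (hF : ∀ i, ContDiff ℝ 1 (F i))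
    (hc : ∀ i, HasCompactSupport (F i))
    (hG : ∀ v : Fin n → ℝ, ∫ x, (∑ i, v i * F i x) ^ 2 ≤ ∑ i, v i ^ 2) :
    Integrable (fun x => (∑ i, F i x * pd 0 (F i) x) ^ 2 / ∑ i, F i x ^ 2) ∧
    π ^ 2 / 3 * ∫ x, (∑ i, F i x ^ 2) ^ 3 ≤
      (∫ x, ∑ i, pd 0 (F i) x ^ 2) +
        3 * ∫ x, (∑ i, F i x * pd 0 (F i) x) ^ 2 / ∑ i, F i x ^ 2 := by
  have hpc : ∀ i, Continuous (pd 0 (F i)) := fun i => (pd_basic (hF i) (hc i) 0).1
  have hρ0 : ∀ x, 0 ≤ ∑ i, F i x ^ 2 := fun x => Finset.sum_nonneg fun i _ => sq_nonneg _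
  have hsqr : ∀ x, ((∑ i, F i x * pd 0 (F i) x) / √(∑ i, F i x ^ 2)) ^ 2 =
      (∑ i, F i x * pd 0 (F i) x) ^ 2 / ∑ i, F i x ^ 2 := by
    intro x
    rw [div_pow, Real.sq_sqrt (hρ0 x)]
  have hI : Integrable (fun x => ∑ i, pd 0 (F i) x ^ 2) :=
    integrable_finsetSum _ fun i _ =>
      ((hpc i).memLp_of_hasCompactSupport (pd_basic (hF i) (hc i) 0).2).integrable_sq
  have hm : AEStronglyMeasurable (fun x => (∑ i, F i x * pd 0 (F i) x) / √(∑ i, F i x ^ 2))
      volume := by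
    refine Measurable.aestronglyMeasurable ?_
    refine Measurable.div ?_ ?_
    · exact (continuous_finsetSum _ fun i _ => (hF i).continuous.mul (hpc i)).measurable
    · exact (Real.continuous_sqrt.comp (continuous_finsetSum _ fun i _ =>
        (hF i).continuous.pow 2)).measurable
  have hJ : Integrable (fun x => (∑ i, F i x * pd 0 (F i) x) ^ 2 / ∑ i, F i x ^ 2) := by
    refine hI.mono' ?_ (Eventually.of_forall fun x => ?_)
    · have := hm.pow 2
      refine this.congr (Eventually.of_forall fun x => ?_)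
      exact hsqr x
    · rw [Real.norm_of_nonneg (div_nonneg (sq_nonneg _) (hρ0 x))]
      exact cs_div _ _
  refine ⟨hJ, ?_⟩
  have h2 : MemLp (fun x => (∑ i, F i x * pd 0 (F i) x) / √(∑ i, F i x ^ 2)) 2 volume := by
    rw [memLp_two_iff_integrable_sq hm]
    simpa only [hsqr] using hJ
  have hz : ∀ᵐ z, ∀ i, F i z = 0 → pd 0 (F i) z = 0 := by
    rw [ae_all_iff]
    intro i
    filter_upwards [zero_set (wgrad_c1 (hF i) (hc i))] with z h1 h3
    exact h1 h3 0
  have hd : LDer (fun z => √(∑ i, F i z ^ 2))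
      (fun x => (∑ i, F i x * pd 0 (F i) x) / √(∑ i, F i x ^ 2)) := by
    unfold LDer
    filter_upwards [hz] with z h1
    exact sqrt_der hF z h1
  have hsc : Continuous (fun z => √(∑ i, F i z ^ 2)) := by
    refine Real.continuous_sqrt.comp (continuous_finsetSum _ fun i _ => ?_)
    exact (hF i).continuous.pow 2
  have hR := real_err (m := 0) F hF hc hG (M := 1) (fun _ z => √(∑ i, F i z ^ 2))
    (fun _ x => (∑ i, F i x * pd 0 (F i) x) / √(∑ i, F i x ^ 2))
    (fun _ => hsc.aestronglyMeasurable) (fun _ => h2) (fun _ => hd) (by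
      intro z z' hzz
      have : z' = z := by
        funext i
        have hi : i = 0 := Fin.ext (by omega)
        rw [hi, hzz]
      rw [this]
      simp only [Finset.univ_unique, Finset.sum_singleton]
      rw [Real.mul_self_sqrt (hρ0 z)]
      exact Finset.sum_congr rfl fun i _ => pow_two _) (zero_le_one) le_rfl
  have e3 : ∀ x, (∑ k : Fin (0 + 1), ∑ i, pd k (F i) x ^ 2) = ∑ i, pd 0 (F i) x ^ 2 :=
    fun x => Fin.sum_univ_one _
  simp only [e3, Finset.univ_unique, Finset.sum_singleton, hsqr, Fin.default_eq_zero] at hR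
  have e1 : ((3 + 1) / 4 : ℝ) ^ (1 / (((0 : ℕ) : ℝ) + 1)) * Kcl (0 + 1) = π ^ 2 / 3 := by
    rw [show ((3 + 1) / 4 : ℝ) = 1 by norm_num, Real.one_rpow, one_mul]
    exact Kcl_one
  have e2 : ∀ x, (∑ i, F i x ^ 2) ^ (1 + 2 / ((0 + 1 : ℕ) : ℝ)) = (∑ i, F i x ^ 2) ^ 3 := by
    intro x
    rw [show (1 + 2 / ((0 + 1 : ℕ) : ℝ)) = ((3 : ℕ) : ℝ) by norm_num, Real.rpow_natCast]
  simp only [e2] at hR
  rw [e1, mul_one] at hR
  exact hR

/-- The inequality in dimension one for real Sobolev functions. -/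
theorem one_real {n : ℕ} (f : Fin n → (Fin 1 → ℝ) → ℝ) (g : Fin n → Fin 1 → (Fin 1 → ℝ) → ℝ)
    (hf : ∀ i, WGrad (f i) (g i))
    (hG : ∀ v : Fin n → ℝ, ∫ x, (∑ i, v i * f i x) ^ 2 ≤ ∑ i, v i ^ 2) :
    Integrable (fun x => (∑ i, f i x ^ 2) ^ 3) ∧
    Integrable (fun x => (∑ i, f i x * g i 0 x) ^ 2 / ∑ i, f i x ^ 2) ∧
    π ^ 2 / 3 * ∫ x, (∑ i, f i x ^ 2) ^ 3 ≤
      (∫ x, ∑ i, g i 0 x ^ 2) + 3 * ∫ x, (∑ i, f i x * g i 0 x) ^ 2 / ∑ i, f i x ^ 2 := by
  have hI3 : Integrable (fun x => (∑ i, f i x ^ 2) ^ 3) := by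
    have h1 := (H_real 0 n f g hf hG).1
    have e2 : ∀ x, (∑ i, f i x ^ 2) ^ pp (3 / 2 + ((0 : ℕ) : ℝ) / 2) = (∑ i, f i x ^ 2) ^ 3 := by
      intro x
      rw [final_thm_pp, show (1 + 2 / ((0 + 1 : ℕ) : ℝ)) = ((3 : ℕ) : ℝ) by norm_num,
        Real.rpow_natCast]
    simp only [e2] at h1
    exact h1
  have hIg : Integrable (fun x => ∑ i, g i 0 x ^ 2) :=
    integrable_finsetSum _ fun i _ => ((hf i).g2 0).integrable_sq
  have hρ0 : ∀ x, 0 ≤ ∑ i, f i x ^ 2 := fun x => Finset.sum_nonneg fun i _ => sq_nonneg _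
  have hIW : Integrable (fun x => (∑ i, f i x * g i 0 x) ^ 2 / ∑ i, f i x ^ 2) := by
    refine hIg.mono' ?_ (Eventually.of_forall fun x => ?_)
    · have m1 : AEMeasurable (fun x => ∑ i, f i x * g i 0 x) volume :=
        Finset.aemeasurable_fun_sum _ fun i _ =>
          (hf i).f2.1.aemeasurable.mul ((hf i).g2 0).1.aemeasurable
      have m2 : AEMeasurable (fun x => ∑ i, f i x ^ 2) volume :=
        Finset.aemeasurable_fun_sum _ fun i _ => (hf i).f2.1.aemeasurable.pow_const 2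
      exact ((m1.pow_const 2).div m2).aestronglyMeasurable
    · rw [Real.norm_of_nonneg (div_nonneg (sq_nonneg _) (hρ0 x))]
      exact cs_div _ _
  refine ⟨hI3, hIW, ?_⟩
  obtain ⟨F, hF1, hF2, hF3, hF4, hF5, hF6⟩ := H_approx2 f g hf
  have hz : ∀ᵐ x, ∀ i, f i x = 0 → g i 0 x = 0 := by
    rw [ae_all_iff]
    intro i
    filter_upwards [zero_set (hf i)] with z h1 h3
    exact h1 h3 0
  have hk := fun k => one_c1 (F k) (hF1 k) (hF2 k) (fun v => (hF3 k v).trans (hG v))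
  have hk1 : ∀ k, Integrable (fun x => ∑ i, pd 0 (F k i) x ^ 2) := fun k =>
    integrable_finsetSum _ fun i _ => ((pd_basic (hF1 k i) (hF2 k i)
      0).1.memLp_of_hasCompactSupport (pd_basic (hF1 k i) (hF2 k i) 0).2).integrable_sq
  have hk3 : ∀ k, Integrable (fun x => (∑ i, F k i x ^ 2) ^ 3) := by
    intro k
    have hc : Continuous (fun x => (∑ i, F k i x ^ 2) ^ 3) :=
      (continuous_finsetSum _ fun i _ => (hF1 k i).continuous.pow 2).pow 3
    refine hc.integrable_of_hasCompactSupport ?_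
    refine HasCompactSupport.intro (K := ⋃ i, tsupport (F k i))
      (isCompact_iUnion fun i => hF2 k i) ?_
    intro x hx
    have h0 : ∀ i, F k i x = 0 := by
      intro i
      by_contra h
      exact hx (mem_iUnion.2 ⟨i, subset_tsupport _ h⟩)
    simp [h0]
  -- the densities
  have hA := fun (δ : ℝ) (hδ : 0 < δ) => fatou_ev (μ := volume)
    (S := fun k x => (∑ i, F k i x ^ 2) ^ 3) (T := fun x => (∑ i, f i x ^ 2) ^ 3)
    (fun k x => pow_nonneg (Finset.sum_nonneg fun i _ => sq_nonneg _) 3) hk3 hI3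
    (fun x => pow_nonneg (hρ0 x) 3) (by
      filter_upwards [hF4] with x h4 c hc
      have h5 : Tendsto (fun k => (∑ i, F k i x ^ 2) ^ 3) atTop (𝓝 ((∑ i, f i x ^ 2) ^ 3)) :=
        (tendsto_finsetSum _ fun i _ => (h4 i).pow 2).pow 3
      exact h5.eventually_const_lt hc) hδ
  -- the remaining part of the kinetic energy
  have hO := fun (δ : ℝ) (hδ : 0 < δ) => fatou_ev (μ := volume)
    (S := fun k x => (∑ i, pd 0 (F k i) x ^ 2) -
      (∑ i, F k i x * pd 0 (F k i) x) ^ 2 / ∑ i, F k i x ^ 2)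
    (T := fun x => (∑ i, g i 0 x ^ 2) - (∑ i, f i x * g i 0 x) ^ 2 / ∑ i, f i x ^ 2)
    (fun k x => sub_nonneg.2 (cs_div _ _)) (fun k => (hk1 k).sub (hk k).1) (hIg.sub hIW)
    (fun x => sub_nonneg.2 (cs_div _ _)) (by
      filter_upwards [hF4, hF5, hz] with x h4 h5 h6 c hc
      by_cases h0 : ∑ i, f i x ^ 2 = 0
      · have h1 : ∀ i, f i x = 0 := by
          intro i
          have := (Finset.sum_eq_zero_iff_of_nonneg (fun i _ => sq_nonneg (f i x))).1 h0 i
            (Finset.mem_univ i)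
          exact pow_eq_zero_iff (two_ne_zero) |>.1 this
        have h2 : c < 0 := by
          simpa [h0, fun i => h6 i (h1 i)] using hc
        exact Eventually.of_forall fun k => lt_of_lt_of_le h2 (sub_nonneg.2 (cs_div _ _))
      · have h7 : Tendsto (fun k => (∑ i, pd 0 (F k i) x ^ 2) -
            (∑ i, F k i x * pd 0 (F k i) x) ^ 2 / ∑ i, F k i x ^ 2) atTop
            (𝓝 ((∑ i, g i 0 x ^ 2) - (∑ i, f i x * g i 0 x) ^ 2 / ∑ i, f i x ^ 2)) := by
          refine (tendsto_finsetSum _ fun i _ => (h5 i 0).pow 2).sub ?_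
          refine Tendsto.div ?_ (tendsto_finsetSum _ fun i _ => (h4 i).pow 2) h0
          exact (tendsto_finsetSum _ fun i _ => (h4 i).mul (h5 i 0)).pow 2
        exact h7.eventually_const_lt hc) hδ
  have hTe : ∀ k : ℕ, ∫ x, ∑ i, pd 0 (F k i) x ^ 2 ≤
      (∫ x, ∑ i, g i 0 x ^ 2) + 1 / ((k : ℝ) + 1) := by
    intro k
    have := hF6 k
    simpa only [Finset.univ_unique, Finset.sum_singleton, Fin.default_eq_zero] using this
  refine le_of_forall_pos_le_add fun δ hδ => ?_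
  have hδ' : 0 < δ / (π ^ 2 + 100) := by positivity
  have f3 := (tendsto_one_div_add_atTop_nhds_zero_nat (𝕜 := ℝ)).eventually_lt_const hδ'
  obtain ⟨k, k1, k2, k3⟩ := ((hA _ hδ').and ((hO _ hδ').and f3)).exists
  have k4 := (hk k).2
  have k5 := hTe k
  rw [integral_sub hIg hIW, integral_sub (hk1 k) (hk k).1] at k2
  set e := δ / (π ^ 2 + 100) with he
  have he1 : e * (π ^ 2 + 100) = δ := by
    rw [he]
    field_simp
  have hpi : 0 < π ^ 2 := by positivity
  nlinarith [mul_lt_mul_of_pos_left k1 (show 0 < π ^ 2 / 3 by positivity), mul_pos hδ' hpi]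

/-- The inequality in dimension one for complex Sobolev functions. -/
theorem one_cplx {N : ℕ} (u : Fin N → (Fin 1 → ℝ) → ℂ) (g : Fin N → Fin 1 → (Fin 1 → ℝ) → ℂ)
    (hu : ∀ i, WGradC (u i) (g i))
    (ho : ∀ i j, ∫ x, (starRingEnd ℂ) (u i x) * u j x = if i = j then 1 else 0) :
    Integrable (fun x => (∑ i, ‖u i x‖ ^ 2) ^ 3) ∧
    Integrable (fun x => (∑ i, ((starRingEnd ℂ) (u i x) * g i 0 x).re) ^ 2 /
      ∑ i, ‖u i x‖ ^ 2) ∧
    π ^ 2 / 3 * ∫ x, (∑ i, ‖u i x‖ ^ 2) ^ 3 ≤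
      (∑ i, ∫ x, ‖g i 0 x‖ ^ 2) +
        3 * ∫ x, (∑ i, ((starRingEnd ℂ) (u i x) * g i 0 x).re) ^ 2 / ∑ i, ‖u i x‖ ^ 2 := by
  let F : Fin (N + N) → (Fin 1 → ℝ) → ℝ :=
    Fin.append (fun i x => (u i x).re) (fun i x => (u i x).im)
  let G : Fin (N + N) → Fin 1 → (Fin 1 → ℝ) → ℝ :=
    Fin.append (fun i k x => (g i k x).re) (fun i k x => (g i k x).im)
  have hFl : ∀ i, F (Fin.castAdd N i) = fun x => (u i x).re := fun i => Fin.append_left _ _ i
  have hFr : ∀ i, F (Fin.natAdd N i) = fun x => (u i x).im := fun i => Fin.append_right _ _ i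
  have hGl : ∀ i, G (Fin.castAdd N i) = fun k x => (g i k x).re := fun i => Fin.append_left _ _ i
  have hGr : ∀ i, G (Fin.natAdd N i) = fun k x => (g i k x).im := fun i => Fin.append_right _ _ i
  have hW : ∀ i, WGrad (F i) (G i) := by
    intro i
    refine Fin.addCases (fun i => ?_) (fun i => ?_) i
    · rw [hFl, hGl]
      exact (split_complex (hu i)).1
    · rw [hFr, hGr]
      exact (split_complex (hu i)).2
  have hG : ∀ v : Fin (N + N) → ℝ, ∫ x, (∑ i, v i * F i x) ^ 2 ≤ ∑ i, v i ^ 2 := by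
    intro v
    have h1 := gram_complex u (fun i => (hu i).f2) ho (fun i => v (Fin.castAdd N i))
      (fun i => v (Fin.natAdd N i))
    have h2 : ∀ x, ∑ i, v i * F i x = ∑ i : Fin N, (v (Fin.castAdd N i) * (u i x).re +
        v (Fin.natAdd N i) * (u i x).im) := by
      intro x
      rw [Fin.sum_univ_add, Finset.sum_add_distrib]
      simp only [hFl, hFr]
    have h3 : ∑ i, v i ^ 2 = ∑ i : Fin N, (v (Fin.castAdd N i) ^ 2 + v (Fin.natAdd N i) ^ 2) := by
      rw [Fin.sum_univ_add, Finset.sum_add_distrib]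
    simp only [h2]
    rw [h3]
    exact h1
  have hH := one_real F G hW hG
  have hFs : ∀ x, ∑ i, F i x ^ 2 = ∑ i, ‖u i x‖ ^ 2 := by
    intro x
    rw [Fin.sum_univ_add, ← Finset.sum_add_distrib]
    simp only [hFl, hFr, nsq]
  have hGs : ∀ x, ∑ i, G i 0 x ^ 2 = ∑ i, ‖g i 0 x‖ ^ 2 := by
    intro x
    rw [Fin.sum_univ_add, ← Finset.sum_add_distrib]
    simp only [hGl, hGr, nsq]
  have hFG : ∀ x, ∑ i, F i x * G i 0 x = ∑ i, ((starRingEnd ℂ) (u i x) * g i 0 x).re := by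
    intro x
    rw [Fin.sum_univ_add, ← Finset.sum_add_distrib]
    simp only [hFl, hFr, hGl, hGr]
    refine Finset.sum_congr rfl fun i _ => ?_
    simp [Complex.mul_re]
  simp only [hFs, hGs, hFG] at hH
  have hI : ∀ i, Integrable (fun x => ‖g i 0 x‖ ^ 2) := fun i =>
    ((hu i).g2 0).integrable_norm_pow two_ne_zero
  rw [integral_finsetSum _ (fun i _ => hI i)] at hH
  exact hH

end Pool.Agent.Q235.LT
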