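import Pool.Agent.Q235.LT.EtaInt
import Pool.Agent.Helper717.LT.Defs
import Pool.Agent.Helper717.LT.P_specS
import Pool.Agent.Helper717.LT.P_A_trace1
import Pool.Agent.Helper717.LT.P_A_point
import Pool.Agent.Helper717.LT.P_A_err
import Pool.Agent.Helper490.CalibKer

/-!
# The matrix inequality
-/

set_option autoImplicit false

open MeasureTheory Set Filter Topology Real
open scoped Matrix

namespace Pool.Agent.Q235.LT

open LTd

/-- The kernel is positive semidefinite, in the form needed for matrices. -/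
theorem ker_nonneg {n : ℕ} (R : Mat n) (hR : PSD R) (b : Fin n → ℝ) :
    0 ≤ ∑ i, ∑ j, ∑ k, R i j * R j k * R k i * Ker (b j) (b k) := by
  have h1 : ∀ j k, Ker (b j) (b k) = 2 * ∫ a, (phi (b j) a - sh a) * (phi (b k) a - sh a) := by
    intro j k
    rw [(int_ker (b j) (b k)).2]
    ring
  have h2 : ∑ i, ∑ j, ∑ k, R i j * R j k * R k i * Ker (b j) (b k) =
      2 * ∫ a, ∑ i, ∑ j, ∑ k, R i j * R j k * R k i *
        ((phi (b j) a - sh a) * (phi (b k) a - sh a)) := by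
    rw [integral_finsetSum _ fun i _ => integrable_finsetSum _ fun j _ =>
      integrable_finsetSum _ fun k _ => (int_ker (b j) (b k)).1.const_mul _, Finset.mul_sum]
    refine Finset.sum_congr rfl fun i _ => ?_
    rw [integral_finsetSum _ fun j _ =>
      integrable_finsetSum _ fun k _ => (int_ker (b j) (b k)).1.const_mul _, Finset.mul_sum]
    refine Finset.sum_congr rfl fun j _ => ?_
    rw [integral_finsetSum _ fun k _ => (int_ker (b j) (b k)).1.const_mul _, Finset.mul_sum]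
    refine Finset.sum_congr rfl fun k _ => ?_
    rw [integral_const_mul, h1]
    ring
  rw [h2]
  refine mul_nonneg (by norm_num) (integral_nonneg fun a => ?_)
  refine Finset.sum_nonneg fun i _ => ?_
  have h3 := hR.2 (fun j => R i j * (phi (b j) a - sh a))
  refine h3.trans (le_of_eq ?_)
  refine Finset.sum_congr rfl fun j _ => Finset.sum_congr rfl fun k _ => ?_
  rw [hR.1 k i]
  ring

/-- The polynomial with the coefficients `a n / (n + 1)`. -/
noncomputable def q (K : ℕ) (a : ℕ → ℝ) (x : ℝ) : ℝ := Pool.Helper490.Calib.FF K a x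

/-- Its divided difference. -/
noncomputable def dq (K : ℕ) (a : ℕ → ℝ) (s r : ℝ) : ℝ :=
  ∑ n ∈ Finset.range K, a n / (n + 1) * gs (n + 1) s r

lemma gs_mul' (a : ℕ) (s r : ℝ) : gs a s r * (s - r) = s ^ a - r ^ a :=
  (Commute.all s r).geom_sum₂_mul a

lemma dq_mul (K : ℕ) (a : ℕ → ℝ) (s r : ℝ) : dq K a s r * (s - r) = q K a s - q K a r := by
  rw [dq, q, q, Pool.Helper490.Calib.FF, Pool.Helper490.Calib.FF, Finset.sum_mul,
    ← Finset.sum_sub_distrib]
  refine Finset.sum_congr rfl fun n _ => ?_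
  rw [mul_assoc, gs_mul']
  ring

lemma dq_self (K : ℕ) (a : ℕ → ℝ) (s : ℝ) : dq K a s s = ∑ n ∈ Finset.range K, a n * s ^ n := by
  rw [dq]
  refine Finset.sum_congr rfl fun n _ => ?_
  have h1 : gs (n + 1) s s = (n + 1) * s ^ n := by
    unfold gs
    have h2 : ∀ l ∈ Finset.range (n + 1), s ^ l * s ^ (n + 1 - 1 - l) = s ^ n := by
      intro l hl
      have h3 : l < n + 1 := Finset.mem_range.1 hl
      rw [← pow_add]
      congr 1
      omega
    rw [Finset.sum_congr rfl h2, Finset.sum_const, Finset.card_range, nsmul_eq_mul]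
    push_cast
    ring
  rw [h1]
  have h4 : (n : ℝ) + 1 ≠ 0 := by positivity
  field_simp

/-- The function `L`. -/
noncomputable def L (θ : ℝ) (x : ℝ) : ℝ := θ * (log (1 + 2 * θ * x) - log (1 - 2 * θ * x))

/-- The hyperbolic parameter. -/
noncomputable def bb (θ : ℝ) (x : ℝ) : ℝ := artanh (2 * θ * x)

section

variable {θ : ℝ} (hθ0 : 0 < θ) (hθ : θ < 1)
include hθ0 hθ

lemma mem_one {x : ℝ} (hx : x ∈ Icc (-(1 / 2) : ℝ) (1 / 2)) : 2 * θ * x ∈ Ioo (-1 : ℝ) 1 := by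
  obtain ⟨h1, h2⟩ := hx
  constructor <;> nlinarith

lemma L_eq {x : ℝ} (hx : x ∈ Icc (-(1 / 2) : ℝ) (1 / 2)) : L θ x = 2 * θ * bb θ x := by
  have h := mem_one hθ0 hθ hx
  have h1 : 0 < 1 + 2 * θ * x := by linarith [h.1]
  have h2 : 0 < 1 - 2 * θ * x := by linarith [h.2]
  rw [L, bb, artanh_eq_half_log (Ioo_subset_Icc_self h), log_div h1.ne' h2.ne']
  ring

lemma L_deriv {x : ℝ} (hx : x ∈ Icc (-(1 / 2) : ℝ) (1 / 2)) :
    HasDerivAt (L θ) (4 * θ ^ 2 / (1 - (2 * θ * x) ^ 2)) x := by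
  have h := mem_one hθ0 hθ hx
  have h1 : 0 < 1 + 2 * θ * x := by linarith [h.1]
  have h2 : 0 < 1 - 2 * θ * x := by linarith [h.2]
  have d0 : HasDerivAt (fun x => 2 * θ * x) (2 * θ) x := by
    simpa using (hasDerivAt_id x).const_mul (2 * θ)
  have d1 := (d0.const_add 1).log h1.ne'
  have d2 := (d0.const_sub 1).log h2.ne'
  refine ((d1.sub d2).const_mul θ).congr_deriv ?_
  have h3 : 1 - (2 * θ * x) ^ 2 = (1 + 2 * θ * x) * (1 - 2 * θ * x) := by ring
  have h4 := h1.ne'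
  have h5 := h2.ne'
  rw [h3, div_sub_div _ _ h4 h5, ← mul_div_assoc, div_left_inj' (mul_ne_zero h4 h5)]
  ring

lemma tanh_bb {x : ℝ} (hx : x ∈ Icc (-(1 / 2) : ℝ) (1 / 2)) : tanh (bb θ x) = 2 * θ * x :=
  tanh_artanh (mem_one hθ0 hθ hx)

lemma L_div {s r : ℝ} (hs : s ∈ Icc (-(1 / 2) : ℝ) (1 / 2)) (hr : r ∈ Icc (-(1 / 2) : ℝ) (1 / 2))
    (hne : s ≠ r) : (L θ s - L θ r) / (s - r) =
      θ ^ 2 * (4 * (cosh (bb θ s) * cosh (bb θ r) * sh (bb θ s - bb θ r))) := by
  have hsr : s - r ≠ 0 := sub_ne_zero.2 hne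
  rw [L_eq hθ0 hθ hs, L_eq hθ0 hθ hr, div_eq_iff hsr]
  have t1 := tanh_bb hθ0 hθ hs
  have t2 := tanh_bb hθ0 hθ hr
  set b := bb θ s with hb
  set c := bb θ r with hc
  have hbc : b - c ≠ 0 := by
    intro h
    have h1 : b = c := by linarith
    rw [h1, t2] at t1
    have h3 : 2 * θ * (s - r) = 0 := by linarith
    rcases mul_eq_zero.1 h3 with h4 | h4
    · linarith
    · exact hsr h4
  have h5 : 2 * θ * (s - r) = sinh (b - c) / (cosh b * cosh c) := by
    have h6 : 2 * θ * (s - r) = tanh b - tanh c := by rw [t1, t2]; ring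
    rw [h6, tanh_eq_sinh_div_cosh, tanh_eq_sinh_div_cosh, sinh_sub]
    have h7 := (cosh_pos b).ne'
    have h8 := (cosh_pos c).ne'
    field_simp
  have h7 := (cosh_pos b).ne'
  have h8 := (cosh_pos c).ne'
  have h9 := sinh_ne hbc
  rw [sh, if_neg hbc]
  have h10 : θ ^ 2 * (4 * (cosh b * cosh c * ((b - c) / sinh (b - c)))) * (s - r) =
      2 * θ * (cosh b * cosh c * ((b - c) / sinh (b - c))) * (2 * θ * (s - r)) := by ring
  rw [h10, h5]
  field_simp

lemma L_diag {s : ℝ} (hs : s ∈ Icc (-(1 / 2) : ℝ) (1 / 2)) :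
    4 * θ ^ 2 / (1 - (2 * θ * s) ^ 2) =
      θ ^ 2 * (4 * (cosh (bb θ s) * cosh (bb θ s) * sh (bb θ s - bb θ s))) := by
  have t1 := tanh_bb hθ0 hθ hs
  rw [← t1, sub_self, sh, if_pos rfl, tanh_eq_sinh_div_cosh]
  have h7 := (cosh_pos (bb θ s)).ne'
  have h8 := cosh_sq (bb θ s)
  have h9 : 1 - (sinh (bb θ s) / cosh (bb θ s)) ^ 2 = 1 / cosh (bb θ s) ^ 2 := by
    field_simp
    linarith
  rw [h9]
  field_simp

/-- The polynomial approximation. -/
theorem exists_poly {ε : ℝ} (hε : 0 < ε) : ∃ (K : ℕ) (a : ℕ → ℝ),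
    (∀ s ∈ Icc (-(1 / 2) : ℝ) (1 / 2), |q K a s ^ 2 - 4 * θ ^ 2 * bb θ s ^ 2| ≤ ε) ∧
    ∀ s ∈ Icc (-(1 / 2) : ℝ) (1 / 2), ∀ r ∈ Icc (-(1 / 2) : ℝ) (1 / 2),
      |dq K a s r - θ ^ 2 * (4 * (cosh (bb θ s) * cosh (bb θ r) * sh (bb θ s - bb θ r)))| ≤ ε := by
  have hcont : ContinuousOn (fun x : ℝ => 4 * θ ^ 2 / (1 - (2 * θ * x) ^ 2))
      (Icc (-(1 / 2)) (1 / 2)) := by
    refine ContinuousOn.div continuousOn_const ?_ ?_
    · fun_prop
    · intro x hx
      have h := mem_one hθ0 hθ hx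
      have h3 : 1 - (2 * θ * x) ^ 2 = (1 + 2 * θ * x) * (1 - 2 * θ * x) := by ring
      rw [h3]
      exact (mul_pos (by linarith [h.1]) (by linarith [h.2])).ne'
  -- a bound for L
  have hLc : ContinuousOn (L θ) (Icc (-(1 / 2)) (1 / 2)) := fun x hx =>
    (L_deriv hθ0 hθ hx).continuousAt.continuousWithinAt
  obtain ⟨C, hC⟩ := isCompact_Icc.exists_bound_of_continuousOn hLc
  have hC0 : 0 ≤ C := (norm_nonneg _).trans (hC 0 ⟨by norm_num, by norm_num⟩)
  set η : ℝ := min 1 (ε / (2 * C + 1)) with hη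
  have hη0 : 0 < η := lt_min one_pos (div_pos hε (by positivity))
  have hη1 : η ≤ 1 := min_le_left _ _
  have hηC : η * (2 * C + 1) ≤ ε := by
    have := min_le_right (1:ℝ) (ε / (2 * C + 1))
    rw [← hη, le_div_iff₀ (by positivity)] at this
    exact this
  have hηε : η ≤ ε := by nlinarith
  obtain ⟨p, hp⟩ := exists_polynomial_near_of_continuousOn (-(1 / 2)) (1 / 2) _ hcont η hη0
  set K : ℕ := p.natDegree + 1 with hK
  set a : ℕ → ℝ := p.coeff with ha
  have hpe : ∀ x, p.eval x = ∑ n ∈ Finset.range K, a n * x ^ n := fun x =>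
    Polynomial.eval_eq_sum_range x
  have hqd : ∀ x, HasDerivAt (q K a) (p.eval x) x := by
    intro x
    rw [hpe]
    exact Pool.Helper490.Calib.FF_deriv K a x
  set H : ℝ → ℝ := fun x => q K a x - L θ x with hH
  have hHd : ∀ x ∈ Icc (-(1 / 2) : ℝ) (1 / 2),
      HasDerivWithinAt H (p.eval x - 4 * θ ^ 2 / (1 - (2 * θ * x) ^ 2)) (Icc (-(1 / 2)) (1 / 2)) x :=
    fun x hx => ((hqd x).sub (L_deriv hθ0 hθ hx)).hasDerivWithinAt
  have hHL : ∀ x ∈ Icc (-(1 / 2) : ℝ) (1 / 2), ∀ y ∈ Icc (-(1 / 2) : ℝ) (1 / 2),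
      |H y - H x| ≤ η * |y - x| := by
    intro x hx y hy
    have := (convex_Icc (-(1 / 2) : ℝ) (1 / 2)).norm_image_sub_le_of_norm_hasDerivWithin_le
      (C := η) hHd (fun z hz => by rw [Real.norm_eq_abs]; exact (hp z hz).le) hx hy
    simpa only [Real.norm_eq_abs] using this
  have hH0 : H 0 = 0 := by simp [hH, q, Pool.Helper490.Calib.FF_zero, L]
  have hHb : ∀ x ∈ Icc (-(1 / 2) : ℝ) (1 / 2), |H x| ≤ η := by
    intro x hx
    have h1 := hHL 0 (by constructor <;> norm_num) x hx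
    rw [hH0, sub_zero, sub_zero] at h1
    have h2 : |x| ≤ 1 := abs_le.2 ⟨by linarith [hx.1], by linarith [hx.2]⟩
    nlinarith only [h1, h2, hη0]
  refine ⟨K, a, fun s hs => ?_, fun s hs r hr => ?_⟩
  · have h1 := hHb s hs
    have h2 : |L θ s| ≤ C := by
      have := hC s hs
      rwa [Real.norm_eq_abs] at this
    have h3 : q K a s ^ 2 - 4 * θ ^ 2 * bb θ s ^ 2 = H s * (H s + 2 * L θ s) := by
      have h4 := L_eq hθ0 hθ hs
      have h5 : 4 * θ ^ 2 * bb θ s ^ 2 = L θ s ^ 2 := by rw [h4]; ring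
      rw [h5, hH]
      ring
    rw [h3, abs_mul]
    have h4 : |H s + 2 * L θ s| ≤ 2 * C + 1 := by
      refine (abs_add_le _ _).trans ?_
      rw [abs_mul, abs_two]
      linarith
    calc |H s| * |H s + 2 * L θ s| ≤ η * (2 * C + 1) :=
          mul_le_mul h1 h4 (abs_nonneg _) hη0.le
      _ ≤ ε := hηC
  · by_cases hne : s = r
    · subst hne
      rw [dq_self, ← hpe, ← L_diag hθ0 hθ hs]
      exact (hp s hs).le.trans hηε
    · have hsr : s - r ≠ 0 := sub_ne_zero.2 hne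
      rw [← L_div hθ0 hθ hs hr hne]
      have h1 : dq K a s r = (q K a s - q K a r) / (s - r) := by
        rw [eq_div_iff hsr, dq_mul]
      rw [h1, ← sub_div, abs_div, div_le_iff₀ (abs_pos.2 hsr)]
      have h2 := hHL r hr s hs
      have h3 : q K a s - q K a r - (L θ s - L θ r) = H s - H r := by
        rw [hH]; ring
      rw [h3]
      exact h2.trans (mul_le_mul_of_nonneg_right hηε (abs_nonneg _))

end

end Pool.Agent.Q235.LT
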