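import Pool.Agent.Q235.LT.Point3
import Pool.Agent.Helper717.LT.P_A_main

/-!
# The matrix inequality with the semiclassical constant and a gradient error
-/

set_option autoImplicit false

open MeasureTheory Set Filter Topology Real
open scoped Matrix

namespace Pool.Agent.Q235.LT

open LTd

/-- The error term `W` dominates the minimal longitudinal energy of the matrices `R`. -/
def ErrAt {n : ℕ} (R S : Mat n) (W : ℝ) : Prop :=
  ∀ l : Mat n, lᵀ = l → 0 ≤ W + (S * l * R).trace + 1 / 4 * (R * l * R * l * R).trace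

theorem main3 {n : ℕ} {R S Q : ℝ → Mat n} (h : Sys R S Q) (hT : PSD (1 - Tot R)) {W : ℝ → ℝ}
    (hWi : Integrable W) (hW : ∀ᵐ x, ErrAt (R x) (S x) (W x))
    {θ ε : ℝ} (hθ0 : 0 < θ) (hθ : θ < 1) (hε : 0 < ε) :
    (θ ^ 2 * (π ^ 2 / 3) - 2 * ε * n ^ 5) * ∫ x, (R x * R x * R x).trace ≤
      (∫ x, (Q x).trace) + 3 * ∫ x, W x := by
  obtain ⟨K, a, hq1, hq2⟩ := exists_poly hθ0 hθ hε
  obtain ⟨B, hBdef⟩ : ∃ B : ℝ → Mat n, B = fun x => Gam R x - (1 / 2 : ℝ) • 1 := ⟨_, rfl⟩
  have hBd : ∀ x i j, HasDerivAt (fun t => B t i j) (R x i j) x := by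
    intro x i j
    rw [hBdef]
    exact (gam_der h x i j).sub_const _
  have hRd : ∀ x i j, HasDerivAt (fun t => R t i j) ((S x + (S x)ᵀ) i j) x := h.der
  have hRc : Continuous R := by
    refine continuous_matrix (fun i j => ?_)
    exact continuous_iff_continuousAt.2 (fun x => (hRd x i j).continuousAt)
  have hBc : Continuous B := by
    refine continuous_matrix (fun i j => ?_)
    exact continuous_iff_continuousAt.2 (fun x => (hBd x i j).continuousAt)
  have hSc : Continuous S := continuous_matrix h.cS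
  have hQc : Continuous Q := continuous_matrix h.cQ
  have hBs : ∀ x i j, B x i j = B x j i := by
    intro x i j
    rw [hBdef]
    have h1 := (gam_psd h x).1.1 i j
    have h2 : (1 : Mat n) i j = (1 : Mat n) j i := by
      rw [Matrix.one_apply, Matrix.one_apply]
      simp only [eq_comm]
    show Gam R x i j - (1 / 2 : ℝ) * (1 : Mat n) i j = Gam R x j i - (1 / 2 : ℝ) * (1 : Mat n) j i
    rw [h1, h2]
  have hBt : ∀ x, (B x)ᵀ = B x := fun x => by
    ext i j
    exact hBs x j i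
  have hRt : ∀ x, (R x)ᵀ = R x := fun x => by
    ext i j
    exact h.symR x j i
  obtain ⟨M, hM⟩ := h.supp
  have hcs : ∀ g : ℝ → ℝ, Continuous g → (∀ x, R x = 0 → S x = 0 → Q x = 0 → g x = 0) →
      Integrable g := by
    intro g hg hg0
    refine hg.integrable_of_hasCompactSupport
      (HasCompactSupport.intro (isCompact_Icc (a := -M) (b := M)) ?_)
    intro x hx
    have h1 : M < |x| := by
      by_contra hc
      push Not at hc
      exact hx (mem_Icc.2 (abs_le.1 hc))
    obtain ⟨h2, h3, h4⟩ := hM x h1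
    exact hg0 x h2 h3 h4
  have hdc : ∀ a : ℕ, Continuous (fun x => dpow (B x) (R x) a) := by
    intro a
    unfold dpow
    fun_prop
  have hΦd : ∀ x, HasDerivAt
      (fun t => ∑ m ∈ Finset.range K, a m / (m + 1) * (R t * R t * B t ^ (m + 1)).trace)
      (∑ m ∈ Finset.range K, a m / (m + 1) * (((S x + (S x)ᵀ) * R x * B x ^ (m + 1)).trace +
        (R x * (S x + (S x)ᵀ) * B x ^ (m + 1)).trace +
        (R x * R x * dpow (B x) (R x) (m + 1)).trace)) x := by
    intro x
    refine HasDerivAt.fun_sum (fun m _ => HasDerivAt.const_mul _ ?_)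
    have h1 := A_deriv hBd hRd 0 (m + 1) x
    have h2 : dpow (B x) (R x) 0 = 0 := by simp [dpow]
    simp only [pow_zero, Matrix.mul_one, h2, Matrix.mul_zero, Matrix.zero_mul, Matrix.trace_zero,
      add_zero] at h1
    exact h1
  have hΦi : Integrable (fun t => ∑ m ∈ Finset.range K,
      a m / (m + 1) * (R t * R t * B t ^ (m + 1)).trace) := by
    refine hcs _ (by fun_prop) (fun x h1 _ _ => ?_)
    simp [h1]
  have hΦ'i : Integrable (fun x => ∑ m ∈ Finset.range K, a m / (m + 1) *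
      (((S x + (S x)ᵀ) * R x * B x ^ (m + 1)).trace +
        (R x * (S x + (S x)ᵀ) * B x ^ (m + 1)).trace +
        (R x * R x * dpow (B x) (R x) (m + 1)).trace)) := by
    refine hcs _ ?_ (fun x h1 _ _ => ?_)
    · have := hdc
      fun_prop
    · simp [h1]
  have hint0 := integral_eq_zero_of_hasDerivAt_of_integrable hΦd hΦ'i hΦi
  have hR3i : Integrable (fun x => (R x * R x * R x).trace) := by
    refine hcs _ (by fun_prop) (fun x h1 _ _ => ?_)
    simp [h1]
  have hQi : Integrable (fun x => (Q x).trace) := by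
    refine hcs _ (by fun_prop) (fun x _ _ h1 => ?_)
    simp [h1]
  have hpt : ∀ᵐ x, (θ ^ 2 * (π ^ 2 / 3) - 2 * ε * n ^ 5) * (R x * R x * R x).trace ≤
      ((Q x).trace + 3 * W x) + ∑ m ∈ Finset.range K, a m / (m + 1) *
      (((S x + (S x)ᵀ) * R x * B x ^ (m + 1)).trace +
        (R x * (S x + (S x)ᵀ) * B x ^ (m + 1)).trace +
        (R x * R x * dpow (B x) (R x) (m + 1)).trace) := by
    filter_upwards [hW] with x hWx
    have h3 := point3 hε.le K a hq1 hq2 (B x) (R x) (hBs x)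
      (by
        have e : (1 / 2 : ℝ) • (1 : Mat n) + B x = Gam R x := by
          rw [hBdef]
          module
        rw [e]
        exact (gam_psd h x).1)
      (by
        have e : (1 / 2 : ℝ) • (1 : Mat n) - B x = (1 - Tot R) + (Tot R - Gam R x) := by
          rw [hBdef]
          module
        rw [e]
        exact A_main_psd_add hT (gam_psd h x).2)
      (sys_psd h x)
    have hls : (ell K a (B x))ᵀ = ell K a (B x) := ell_symm K a (B x) (hBt x)
    have h4 := alg3 (R x) (S x) (Q x) (ell K a (B x)) (W x) (hRt x) hls (h.key x)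
      (hWx _ hls)
    have h5 : ∑ m ∈ Finset.range K, a m / (m + 1) *
      (((S x + (S x)ᵀ) * R x * B x ^ (m + 1)).trace +
        (R x * (S x + (S x)ᵀ) * B x ^ (m + 1)).trace +
        (R x * R x * dpow (B x) (R x) (m + 1)).trace) =
        (((S x + (S x)ᵀ) * R x * ell K a (B x)).trace +
        (R x * (S x + (S x)ᵀ) * ell K a (B x)).trace) +
        ∑ m ∈ Finset.range K, a m / (m + 1) * (R x * R x * dpow (B x) (R x) (m + 1)).trace := by
      have e1 : ∀ X : Mat n, (X * ell K a (B x)).trace =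
          ∑ m ∈ Finset.range K, a m / (m + 1) * (X * B x ^ (m + 1)).trace := by
        intro X
        rw [ell, Matrix.mul_sum, Matrix.trace_sum]
        refine Finset.sum_congr rfl fun m _ => ?_
        rw [Matrix.mul_smul, Matrix.trace_smul, smul_eq_mul]
      rw [e1, e1, ← Finset.sum_add_distrib, ← Finset.sum_add_distrib]
      refine Finset.sum_congr rfl fun m _ => ?_
      ring
    rw [h5, der_tr (R x) (S x) _ (hRt x) hls]
    linarith
  have hQW : Integrable (fun x => (Q x).trace + 3 * W x) := hQi.add (hWi.const_mul 3)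
  have hfin := integral_mono_ae (hR3i.const_mul (θ ^ 2 * (π ^ 2 / 3) - 2 * ε * n ^ 5))
    (hQW.add hΦ'i) hpt
  have e5 := integral_add hQW hΦ'i
  have e6 := integral_add hQi (hWi.const_mul 3)
  rw [hint0, add_zero, e6, integral_const_mul] at e5
  rw [integral_const_mul] at hfin
  exact hfin.trans (le_of_eq e5)

theorem block3 {n : ℕ} {R S Q : ℝ → Mat n} (h : Sys R S Q) (hT : PSD (1 - Tot R)) {W : ℝ → ℝ}
    (hWi : Integrable W) (hW : ∀ᵐ x, ErrAt (R x) (S x) (W x)) :
    π ^ 2 / 3 * ∫ x, (R x * R x * R x).trace ≤ (∫ x, (Q x).trace) + 3 * ∫ x, W x := by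
  obtain ⟨I, hI⟩ : ∃ I : ℝ, I = ∫ x, (R x * R x * R x).trace := ⟨_, rfl⟩
  obtain ⟨J, hJ⟩ : ∃ J : ℝ, J = (∫ x, (Q x).trace) + 3 * ∫ x, W x := ⟨_, rfl⟩
  rw [← hI, ← hJ]
  have h1 : ∀ θ : ℝ, 0 < θ → θ < 1 → θ ^ 2 * (π ^ 2 / 3) * I ≤ J := by
    intro θ hθ0 hθ
    have h2 : Filter.Tendsto (fun ε : ℝ => (θ ^ 2 * (π ^ 2 / 3) - 2 * ε * (n : ℝ) ^ 5) * I)
        (nhdsWithin 0 (Set.Ioi 0)) (nhds ((θ ^ 2 * (π ^ 2 / 3) - 2 * 0 * (n : ℝ) ^ 5) * I)) := by
      have h3 : Continuous (fun ε : ℝ => (θ ^ 2 * (π ^ 2 / 3) - 2 * ε * (n : ℝ) ^ 5) * I) := by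
        fun_prop
      exact (h3.tendsto 0).mono_left nhdsWithin_le_nhds
    rw [mul_zero, zero_mul, sub_zero] at h2
    refine le_of_tendsto h2 ?_
    filter_upwards [self_mem_nhdsWithin] with ε hε
    have := main3 h hT hWi hW hθ0 hθ (ε := ε) hε
    rw [← hI, ← hJ] at this
    exact this
  have h2 : Filter.Tendsto (fun θ : ℝ => θ ^ 2 * (π ^ 2 / 3) * I)
      (nhdsWithin 1 (Set.Iio 1)) (nhds ((1:ℝ) ^ 2 * (π ^ 2 / 3) * I)) := by
    have h3 : Continuous (fun θ : ℝ => θ ^ 2 * (π ^ 2 / 3) * I) := by fun_prop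
    exact (h3.tendsto 1).mono_left nhdsWithin_le_nhds
  have h3 : (1:ℝ) ^ 2 * (π ^ 2 / 3) * I ≤ J := by
    refine le_of_tendsto h2 ?_
    filter_upwards [Ioo_mem_nhdsLT one_pos] with θ hθ
    exact h1 θ hθ.1 hθ.2
  linarith

end Pool.Agent.Q235.LT
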