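import Pool.Agent.Q235.LT.KerMat

/-!
# The pointwise matrix inequality
-/

set_option autoImplicit false

open MeasureTheory Set Filter Topology Real
open scoped Matrix

namespace Pool.Agent.Q235.LT

open LTd

/-- The polynomial `q` applied to a matrix. -/
noncomputable def ell {n : ℕ} (K : ℕ) (a : ℕ → ℝ) (B : Mat n) : Mat n :=
  ∑ m ∈ Finset.range K, (a m / (m + 1)) • B ^ (m + 1)

lemma ell_conj {n : ℕ} (K : ℕ) (a : ℕ → ℝ) (V : Mat n) (e : Fin n → ℝ) (hV : V * Vᵀ = 1)
    (hV' : Vᵀ * V = 1) : ell K a (V * Matrix.diagonal e * Vᵀ) =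
      V * Matrix.diagonal (fun i => q K a (e i)) * Vᵀ := by
  have h1 : (Matrix.diagonal (fun i => q K a (e i)) : Mat n) =
      ∑ m ∈ Finset.range K, (a m / (m + 1)) • Matrix.diagonal (fun i => e i ^ (m + 1)) := by
    ext i j
    rw [Matrix.sum_apply]
    by_cases hij : i = j
    · subst hij
      simp [q, Pool.Helper490.Calib.FF]
    · simp [hij]
  rw [h1, ell, Matrix.mul_sum, Matrix.sum_mul]
  refine Finset.sum_congr rfl fun m _ => ?_
  rw [A_trace1_pow V e hV hV', Matrix.mul_smul, Matrix.smul_mul]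

lemma ell_symm {n : ℕ} (K : ℕ) (a : ℕ → ℝ) (B : Mat n) (hB : Bᵀ = B) : (ell K a B)ᵀ = ell K a B := by
  rw [ell, Matrix.transpose_sum]
  refine Finset.sum_congr rfl fun m _ => ?_
  rw [Matrix.transpose_smul, Matrix.transpose_pow, hB]

lemma tr_mid {n : ℕ} (X : Mat n) (f : Fin n → ℝ) :
    (X * X * X * Matrix.diagonal f).trace = ∑ i, ∑ j, ∑ k, X i j * X j k * X k i * f j := by
  have h1 := A_trace1_tr X f (fun _ => 1) (fun _ => 1)
  have h2 : (Matrix.diagonal (fun _ : Fin n => (1:ℝ)) : Mat n) = 1 := Matrix.diagonal_one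
  rw [h2, Matrix.mul_one, Matrix.mul_one] at h1
  simp only [one_mul, mul_one] at h1
  rw [← h1]
  calc (X * X * X * Matrix.diagonal f).trace = ((X * X) * (X * Matrix.diagonal f)).trace := by
        simp only [Matrix.mul_assoc]
    _ = ((X * Matrix.diagonal f) * (X * X)).trace := Matrix.trace_mul_comm _ _
    _ = _ := by simp only [Matrix.mul_assoc]

lemma tr_right {n : ℕ} (X : Mat n) (f : Fin n → ℝ) :
    (X * X * X * Matrix.diagonal f).trace = ∑ i, ∑ j, ∑ k, X i j * X j k * X k i * f k := by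
  have h1 := A_trace1_tr X (fun _ => 1) f (fun _ => 1)
  have h2 : (Matrix.diagonal (fun _ : Fin n => (1:ℝ)) : Mat n) = 1 := Matrix.diagonal_one
  rw [h2, Matrix.mul_one, Matrix.mul_one] at h1
  simp only [one_mul, mul_one] at h1
  rw [← h1]
  calc (X * X * X * Matrix.diagonal f).trace = (X * (X * X * Matrix.diagonal f)).trace := by
        simp only [Matrix.mul_assoc]
    _ = (X * X * Matrix.diagonal f * X).trace := Matrix.trace_mul_comm _ _

theorem point3 {n : ℕ} {θ ε : ℝ} (hε : 0 ≤ ε) (K : ℕ) (a : ℕ → ℝ)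
    (h1 : ∀ s ∈ Icc (-(1 / 2) : ℝ) (1 / 2), |q K a s ^ 2 - 4 * θ ^ 2 * bb θ s ^ 2| ≤ ε)
    (h2 : ∀ s ∈ Icc (-(1 / 2) : ℝ) (1 / 2), ∀ r ∈ Icc (-(1 / 2) : ℝ) (1 / 2),
      |dq K a s r - θ ^ 2 * (4 * (cosh (bb θ s) * cosh (bb θ r) * sh (bb θ s - bb θ r)))| ≤ ε)
    (B R : Mat n) (hB : ∀ i j, B i j = B j i) (hB1 : PSD ((1 / 2 : ℝ) • 1 + B))
    (hB2 : PSD ((1 / 2 : ℝ) • 1 - B)) (hR : PSD R) :
    (θ ^ 2 * (π ^ 2 / 3) - 2 * ε * n ^ 5) * (R * R * R).trace ≤
      (∑ m ∈ Finset.range K, a m / (m + 1) * (R * R * dpow B R (m + 1)).trace) -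
        (ell K a B * (R * R * R) * ell K a B).trace := by
  obtain ⟨V, e, hV, hV', rfl⟩ := specS hB
  set Rh : Mat n := Vᵀ * R * V with hRh
  have hRhP : PSD Rh := ap_psd R V hR
  have hD : Vᵀ * (V * Matrix.diagonal e * Vᵀ) * V = Matrix.diagonal e := by
    calc Vᵀ * (V * Matrix.diagonal e * Vᵀ) * V =
        (Vᵀ * V) * Matrix.diagonal e * (Vᵀ * V) := by simp only [Matrix.mul_assoc]
      _ = Matrix.diagonal e := by rw [hV', Matrix.one_mul, Matrix.mul_one]
  have hI : Vᵀ * ((1 / 2 : ℝ) • (1 : Mat n)) * V = (1 / 2 : ℝ) • (1 : Mat n) := by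
    rw [Matrix.mul_smul, Matrix.mul_one, Matrix.smul_mul, hV']
  have he : ∀ i, e i ∈ Icc (-(1 / 2) : ℝ) (1 / 2) := by
    intro i
    constructor
    · have h1 := ap_diag _ (ap_psd _ V hB1) i
      rw [Matrix.mul_add, Matrix.add_mul, hD, hI] at h1
      simp only [Matrix.add_apply, Matrix.smul_apply, Matrix.one_apply_eq,
        Matrix.diagonal_apply_eq, smul_eq_mul, mul_one] at h1
      linarith
    · have h1 := ap_diag _ (ap_psd _ V hB2) i
      rw [Matrix.mul_sub, Matrix.sub_mul, hD, hI] at h1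
      simp only [Matrix.sub_apply, Matrix.smul_apply, Matrix.one_apply_eq,
        Matrix.diagonal_apply_eq, smul_eq_mul, mul_one] at h1
      linarith
  -- the divided difference sum
  have e1 : ∑ m ∈ Finset.range K, a m / (m + 1) *
      (R * R * dpow (V * Matrix.diagonal e * Vᵀ) R (m + 1)).trace =
      ∑ i, ∑ j, ∑ k, Rh i j * Rh j k * Rh k i * dq K a (e j) (e k) := by
    have h3 : ∀ m ∈ Finset.range K, a m / (m + 1) *
        (R * R * dpow (V * Matrix.diagonal e * Vᵀ) R (m + 1)).trace =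
        ∑ i, ∑ j, ∑ k, Rh i j * Rh j k * Rh k i * (a m / (m + 1) * gs (m + 1) (e j) (e k)) := by
      intro m _
      have h4 := A_trace1 V R e hV hV' (m + 1) 0
      simp only [pow_zero, Matrix.mul_one, one_mul] at h4
      have h5 : (R * R * dpow (V * Matrix.diagonal e * Vᵀ) R (m + 1)).trace =
          (R * dpow (V * Matrix.diagonal e * Vᵀ) R (m + 1) * R).trace := by
        rw [Matrix.mul_assoc, Matrix.trace_mul_comm]
      rw [h5, h4, Finset.mul_sum]
      refine Finset.sum_congr rfl fun i _ => ?_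
      rw [Finset.mul_sum]
      refine Finset.sum_congr rfl fun j _ => ?_
      rw [Finset.mul_sum]
      refine Finset.sum_congr rfl fun k _ => ?_
      ring
    rw [Finset.sum_congr rfl h3, Finset.sum_comm]
    refine Finset.sum_congr rfl fun i _ => ?_
    rw [Finset.sum_comm]
    refine Finset.sum_congr rfl fun j _ => ?_
    rw [Finset.sum_comm]
    refine Finset.sum_congr rfl fun k _ => ?_
    rw [dq, Finset.mul_sum]
  -- the square
  have e2 : (ell K a (V * Matrix.diagonal e * Vᵀ) * (R * R * R) *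
      ell K a (V * Matrix.diagonal e * Vᵀ)).trace =
      (Rh * Rh * Rh * Matrix.diagonal (fun i => q K a (e i) ^ 2)).trace := by
    rw [ell_conj K a V e hV hV']
    have h3 : V * Matrix.diagonal (fun i => q K a (e i)) * Vᵀ * (R * R * R) *
        (V * Matrix.diagonal (fun i => q K a (e i)) * Vᵀ) =
        V * (Matrix.diagonal (fun i => q K a (e i)) * (Vᵀ * R * R * R * V *
          Matrix.diagonal (fun i => q K a (e i)) * Vᵀ)) := by
      simp only [Matrix.mul_assoc]
    have h4 : Rh * Rh * Rh = Vᵀ * R * R * R * V := by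
      calc Rh * Rh * Rh = Vᵀ * R * (V * Vᵀ) * R * (V * Vᵀ) * R * V := by
            rw [hRh]; simp only [Matrix.mul_assoc]
        _ = _ := by rw [hV, Matrix.mul_one, Matrix.mul_one]
    rw [h3, Matrix.trace_mul_comm, h4]
    have h5 : Matrix.diagonal (fun i => q K a (e i)) * (Vᵀ * R * R * R * V *
          Matrix.diagonal (fun i => q K a (e i)) * Vᵀ) * V =
        Matrix.diagonal (fun i => q K a (e i)) * (Vᵀ * R * R * R * V *
          Matrix.diagonal (fun i => q K a (e i)) * (Vᵀ * V)) := by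
      simp only [Matrix.mul_assoc]
    rw [h5, hV', Matrix.mul_one, Matrix.trace_mul_comm, Matrix.mul_assoc,
      Matrix.diagonal_mul_diagonal]
    simp only [pow_two]
  have e4 : (R * R * R).trace = ∑ i, ∑ j, ∑ k, Rh i j * Rh j k * Rh k i := by
    rw [← ap_tr2 V R hV, ap_tr]
  have hker := ker_nonneg Rh hRhP (fun i => bb θ (e i))
  have hx := A_err Rh hRhP (fun _ j k => dq K a (e j) (e k) -
    1 / 2 * (q K a (e j) ^ 2 + q K a (e k) ^ 2) -
    θ ^ 2 * Ker (bb θ (e j)) (bb θ (e k)) - θ ^ 2 * (π ^ 2 / 3)) (2 * ε) (by positivity)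
    (fun i j k => by
      have a1 := abs_le.1 (h2 (e j) (he j) (e k) (he k))
      have a2 := abs_le.1 (h1 (e j) (he j))
      have a3 := abs_le.1 (h1 (e k) (he k))
      have a4 : θ ^ 2 * Ker (bb θ (e j)) (bb θ (e k)) =
          θ ^ 2 * (4 * (cosh (bb θ (e j)) * cosh (bb θ (e k)) * sh (bb θ (e j) - bb θ (e k)))) -
          1 / 2 * (4 * θ ^ 2 * bb θ (e j) ^ 2) - 1 / 2 * (4 * θ ^ 2 * bb θ (e k) ^ 2) -
          θ ^ 2 * (π ^ 2 / 3) := by
        rw [Ker]; ring
      rw [a4, abs_le]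
      constructor <;> linarith [a1.1, a1.2, a2.1, a2.2, a3.1, a3.2])
  rw [ap_tr2 V R hV] at hx
  have hx2 := (abs_le.1 hx).1
  have hsplit : ∑ i, ∑ j, ∑ k, Rh i j * Rh j k * Rh k i * (dq K a (e j) (e k) -
      1 / 2 * (q K a (e j) ^ 2 + q K a (e k) ^ 2) -
      θ ^ 2 * Ker (bb θ (e j)) (bb θ (e k)) - θ ^ 2 * (π ^ 2 / 3)) =
      (∑ i, ∑ j, ∑ k, Rh i j * Rh j k * Rh k i * dq K a (e j) (e k)) -
      1 / 2 * ((∑ i, ∑ j, ∑ k, Rh i j * Rh j k * Rh k i * q K a (e j) ^ 2) +
        ∑ i, ∑ j, ∑ k, Rh i j * Rh j k * Rh k i * q K a (e k) ^ 2) -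
      θ ^ 2 * (∑ i, ∑ j, ∑ k, Rh i j * Rh j k * Rh k i * Ker (bb θ (e j)) (bb θ (e k))) -
      θ ^ 2 * (π ^ 2 / 3) * (∑ i, ∑ j, ∑ k, Rh i j * Rh j k * Rh k i) := by
    simp only [Finset.mul_sum, ← Finset.sum_add_distrib, ← Finset.sum_sub_distrib]
    refine Finset.sum_congr rfl fun i _ => Finset.sum_congr rfl fun j _ =>
      Finset.sum_congr rfl fun k _ => ?_
    ring
  rw [hsplit, ← tr_mid Rh (fun i => q K a (e i) ^ 2), ← tr_right Rh (fun i => q K a (e i) ^ 2),
    ← e4, ← e1, ← e2] at hx2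
  have hθ2 : 0 ≤ θ ^ 2 := sq_nonneg θ
  have h5 := mul_nonneg hθ2 hker
  have h6 : θ ^ 2 * (∑ i, ∑ j, ∑ k, Rh i j * Rh j k * Rh k i * Ker (bb θ (e j)) (bb θ (e k))) ≥ 0 :=
    h5
  linarith

/-- The algebraic part. -/
theorem alg3 {n : ℕ} (R S Q l : Mat n) (W : ℝ) (hR : Rᵀ = R) (hl : lᵀ = l)
    (hk : ∀ X Y : Mat n, 0 ≤ (X * Q * Xᵀ).trace - 2 * (X * S * Yᵀ).trace + (Y * R * Yᵀ).trace)
    (hW : 0 ≤ W + (S * l * R).trace + 1 / 4 * (R * l * R * l * R).trace) :
    -(l * (R * R * R) * l).trace ≤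
      Q.trace + 3 * W + 2 * (S * R * l).trace + 2 * (S * l * R).trace := by
  have h := hk 1 (-(l * R - (1 / 2 : ℝ) • (R * l)))
  have hYt : (-(l * R - (1 / 2 : ℝ) • (R * l)))ᵀ = -(R * l - (1 / 2 : ℝ) • (l * R)) := by
    rw [Matrix.transpose_neg, Matrix.transpose_sub, Matrix.transpose_smul, Matrix.transpose_mul,
      Matrix.transpose_mul, hR, hl]
  rw [hYt, Matrix.transpose_one, Matrix.one_mul, Matrix.one_mul, Matrix.mul_one] at h
  have p1 : (S * -(R * l - (1 / 2 : ℝ) • (l * R))).trace =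
      -(S * R * l).trace + 1 / 2 * (S * l * R).trace := by
    rw [Matrix.mul_neg, Matrix.mul_sub, Matrix.mul_smul, Matrix.trace_neg, Matrix.trace_sub,
      Matrix.trace_smul, smul_eq_mul, ← Matrix.mul_assoc, ← Matrix.mul_assoc]
    ring
  have p2 : (-(l * R - (1 / 2 : ℝ) • (R * l)) * R * -(R * l - (1 / 2 : ℝ) • (l * R))).trace =
      (l * (R * R * R) * l).trace - 3 / 4 * (R * l * R * l * R).trace := by
    have c1 : (l * R * R * (l * R)).trace = (R * l * R * l * R).trace := by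
      calc (l * R * R * (l * R)).trace = (l * (R * R * l * R)).trace := by
            simp only [Matrix.mul_assoc]
        _ = (R * R * l * R * l).trace := Matrix.trace_mul_comm _ _
        _ = (R * (R * l * R * l)).trace := by simp only [Matrix.mul_assoc]
        _ = (R * l * R * l * R).trace := Matrix.trace_mul_comm _ _
    have c2 : (R * l * R * (R * l)).trace = (R * l * R * l * R).trace := by
      calc (R * l * R * (R * l)).trace = ((R * l) * (R * l * R)).trace :=
            Matrix.trace_mul_comm _ _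
        _ = _ := by simp only [Matrix.mul_assoc]
    have c3 : (l * R * R * (R * l)).trace = (l * (R * R * R) * l).trace := by
      simp only [Matrix.mul_assoc]
    have c4 : (R * l * R * (l * R)).trace = (R * l * R * l * R).trace := by
      simp only [Matrix.mul_assoc]
    have e1 : -(l * R - (1 / 2 : ℝ) • (R * l)) * R * -(R * l - (1 / 2 : ℝ) • (l * R)) =
        l * R * R * (R * l) - (1 / 2 : ℝ) • (l * R * R * (l * R)) -
        (1 / 2 : ℝ) • (R * l * R * (R * l)) + (1 / 4 : ℝ) • (R * l * R * (l * R)) := by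
      rw [Matrix.neg_mul, Matrix.neg_mul, Matrix.mul_neg, neg_neg, Matrix.sub_mul, Matrix.sub_mul,
        Matrix.mul_sub, Matrix.mul_sub, Matrix.mul_smul, Matrix.smul_mul, Matrix.smul_mul,
        Matrix.mul_smul, Matrix.smul_mul, smul_smul]
      norm_num
      abel
    rw [e1, Matrix.trace_add, Matrix.trace_sub, Matrix.trace_sub, Matrix.trace_smul,
      Matrix.trace_smul, Matrix.trace_smul, c1, c2, c3, c4]
    simp only [smul_eq_mul]
    ring
  rw [p1, p2] at h
  linarith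

lemma der_tr {n : ℕ} (R S l : Mat n) (hR : Rᵀ = R) (hl : lᵀ = l) :
    ((S + Sᵀ) * R * l).trace + (R * (S + Sᵀ) * l).trace =
      2 * (S * R * l).trace + 2 * (S * l * R).trace := by
  have h1 : (Sᵀ * R * l).trace = (S * l * R).trace := by
    rw [← Matrix.trace_transpose]
    simp only [Matrix.transpose_mul, Matrix.transpose_transpose, hR, hl]
    rw [← Matrix.mul_assoc, Matrix.trace_mul_comm, Matrix.mul_assoc]
  have h2 : (R * S * l).trace = (S * l * R).trace := by
    rw [Matrix.mul_assoc, Matrix.trace_mul_comm]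
  have h3 : (R * Sᵀ * l).trace = (S * R * l).trace := by
    rw [← Matrix.trace_transpose]
    simp only [Matrix.transpose_mul, Matrix.transpose_transpose, hR, hl]
    rw [Matrix.trace_mul_comm]
  rw [Matrix.add_mul, Matrix.add_mul, Matrix.mul_add, Matrix.add_mul, Matrix.trace_add,
    Matrix.trace_add, h1, h2, h3]
  ring

end Pool.Agent.Q235.LT
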