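import Pool.Agent.Q235.LT.SliceErr
import Pool.Agent.Helper717.LT.P_final_thm

/-!
# The inequality with a gradient error for real functions
-/

set_option autoImplicit false

open MeasureTheory Set Filter Topology Real
open scoped Matrix

namespace Pool.Agent.Q235.LT

open LTd

theorem const_eta (m : ℕ) {η : ℝ} (h0 : 0 ≤ η) :
    bco (m / 2) (3 / 2) (π ^ 2 / 4 * (1 + η / 3)) =
      ((3 + η) / 4 : ℝ) ^ (1 / ((m : ℝ) + 1)) * Kcl (m + 1) := by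
  have hJ : 0 < JJ ((m : ℝ) / 2) (3 / 2) := by
    unfold JJ
    have h1 : 0 < cc (3 / 2 + (m : ℝ) / 2) := bco_cc_pos (by have := Nat.cast_nonneg (α := ℝ) m; linarith)
    have h2 : 0 < cc (3 / 2) := bco_cc_pos (by norm_num)
    have h3 : 0 < Gamma (3 / 2 + 1 + (m : ℝ) / 2) := Real.Gamma_pos_of_pos (by positivity)
    have h4 : 0 < Gamma (3 / 2 + 1 : ℝ) := Real.Gamma_pos_of_pos (by norm_num)
    have h5 : 0 < (4 * π) ^ ((m : ℝ) / 2) := Real.rpow_pos_of_pos (by positivity) _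
    positivity
  have hc := const_final m
  unfold bco at hc ⊢
  have e1 : (1 / ((3 / 2 : ℝ) + (m : ℝ) / 2 - 1)) = 2 * (1 / ((m : ℝ) + 1)) := by
    have : (m : ℝ) + 1 ≠ 0 := by positivity
    rw [show (3 / 2 : ℝ) + (m : ℝ) / 2 - 1 = ((m : ℝ) + 1) / 2 by ring]
    field_simp
  have e2 : (π ^ 2 / 4 * (1 + η / 3) : ℝ) ^ ((3 / 2 : ℝ) - 1) =
      (π ^ 2 / 4 : ℝ) ^ ((3 / 2 : ℝ) - 1) * (1 + η / 3) ^ ((3 / 2 : ℝ) - 1) :=
    Real.mul_rpow (by positivity) (by positivity)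
  rw [e2, ← mul_assoc, Real.mul_rpow (by positivity) (by positivity), hc]
  have e3 : ((1 + η / 3 : ℝ) ^ ((3 / 2 : ℝ) - 1)) ^ (1 / ((3 / 2 : ℝ) + (m : ℝ) / 2 - 1)) =
      (1 + η / 3) ^ (1 / ((m : ℝ) + 1)) := by
    rw [← Real.rpow_mul (by positivity), e1]
    congr 1
    ring
  rw [e3]
  have e4 : ((3 + η) / 4 : ℝ) = 3 / 4 * (1 + η / 3) := by ring
  rw [e4, Real.mul_rpow (by norm_num) (by positivity)]
  ring

/-- The inequality for real functions. -/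
theorem real_err {m n M : ℕ} (w : Fin n → (Fin (m + 1) → ℝ) → ℝ) (hw : ∀ i, ContDiff ℝ 1 (w i))
    (hc : ∀ i, HasCompactSupport (w i))
    (hG : ∀ v : Fin n → ℝ, ∫ x, (∑ i, v i * w i x) ^ 2 ≤ ∑ i, v i ^ 2)
    (g h : Fin M → (Fin (m + 1) → ℝ) → ℝ) (hg : ∀ j, AEStronglyMeasurable (g j) volume)
    (hh : ∀ j, MemLp (h j) 2 volume) (hd : ∀ j, LDer (g j) (h j))
    (hs : ∀ z z' : Fin (m + 1) → ℝ, z 0 = z' 0 →
      ∑ j, g j z * g j z' = ∑ i, w i z * w i z') {η : ℝ} (h0 : 0 ≤ η) (h1 : η ≤ 1) :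
    ((3 + η) / 4 : ℝ) ^ (1 / ((m : ℝ) + 1)) * Kcl (m + 1) *
        ∫ x, (∑ i, w i x ^ 2) ^ (1 + 2 / ((m + 1 : ℕ) : ℝ)) ≤
      (∫ x, ∑ k, ∑ i, pd k (w i) x ^ 2) + 3 * η * ∑ j, ∫ z, h j z ^ 2 := by
  have hwc : ∀ i, Continuous (w i) := fun i => (hw i).continuous
  have hA := blockA (slice_sys w hw hc) (PSD_one_sub_tot' w hwc hc hG)
  have hB := slice_err w hw hc hG g h hg hh hd hs
  have hAB : π ^ 2 / 4 * (1 + η / 3) * ∫ x, (RS w x * RS w x * RS w x).trace ≤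
      (∫ x, (QS w x).trace) + 3 * η * ∑ j, ∫ z, h j z ^ 2 := by
    nlinarith [mul_le_mul_of_nonneg_left hA (sub_nonneg.2 h1), mul_le_mul_of_nonneg_left hB h0]
  have hC := coreA m n w hw hc (by positivity) hAB
  rw [const_eta m h0, final_thm_pp] at hC
  exact hC

end Pool.Agent.Q235.LT
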