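import Pool.Agent.Helper490.LTSech

/-!
# Integrals of hyperbolic functions

The functions `phi b a = cosh b / cosh (a - b)` and `eta a = a / sinh a` and the integrals of
their products.
-/

set_option autoImplicit false

open MeasureTheory Set Filter Topology Real

namespace Pool.Agent.Q235.LT

open Pool.Helper490.Sech

/-- `x / sinh x`, with the value `1` at `0`. -/
noncomputable def sh (x : ℝ) : ℝ := if x = 0 then 1 else x / sinh x

lemma sinh_ne {x : ℝ} (h : x ≠ 0) : sinh x ≠ 0 := by
  rw [Ne, sinh_eq_zero]; exact h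

lemma tanh_deriv (x : ℝ) : HasDerivAt tanh ((cosh x)⁻¹ ^ 2) x := by
  have h1 := (hasDerivAt_sinh x).div (hasDerivAt_cosh x) (cosh_pos x).ne'
  have h2 : tanh = fun x => sinh x / cosh x := by
    funext y; exact tanh_eq_sinh_div_cosh y
  rw [h2]
  refine h1.congr_deriv ?_
  have h3 := cosh_sq x
  have h4 : cosh x ≠ 0 := (cosh_pos x).ne'
  have h5 : cosh x * cosh x - sinh x * sinh x = 1 := by
    have := cosh_sq x
    nlinarith
  rw [h5]
  field_simp

lemma tendsto_tanh_top : Tendsto tanh atTop (𝓝 1) := by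
  have h1 : Tendsto (fun x : ℝ => 1 - 2 / (exp (2 * x) + 1)) atTop (𝓝 (1 - 0)) := by
    refine tendsto_const_nhds.sub ?_
    refine Tendsto.const_div_atTop ?_ 2
    refine tendsto_atTop_add_const_right _ _ ?_
    exact tendsto_exp_atTop.comp (tendsto_id.const_mul_atTop (by norm_num))
  rw [sub_zero] at h1
  refine h1.congr fun x => ?_
  rw [tanh_eq_sinh_div_cosh, sinh_eq, cosh_eq]
  have h2 : exp (2 * x) = exp x * exp x := by rw [← exp_add]; ring_nf
  have h3 : exp (-x) = (exp x)⁻¹ := exp_neg x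
  have h4 := exp_pos x
  rw [h2, h3]
  field_simp
  ring

lemma tendsto_tanh_bot : Tendsto tanh atBot (𝓝 (-1)) := by
  have h1 := (tendsto_tanh_top.comp tendsto_neg_atBot_atTop).neg
  refine h1.congr fun x => ?_
  simp [tanh_neg]

lemma int_sech2 : Integrable (fun x => (cosh x)⁻¹ ^ 2) := by
  have hc : Continuous fun x => (cosh x)⁻¹ ^ 2 :=
    (continuous_cosh.inv₀ fun x => (cosh_pos x).ne').pow 2
  refine int_sech.mono' hc.aestronglyMeasurable (Eventually.of_forall fun x => ?_)
  have h2 : 0 < cosh x := cosh_pos x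
  have h3 : (cosh x)⁻¹ ≤ 1 := inv_le_one_of_one_le₀ (one_le_cosh x)
  have h4 : 0 < (cosh x)⁻¹ := inv_pos.2 h2
  rw [Real.norm_eq_abs, abs_of_pos (by positivity)]
  nlinarith

lemma integral_sech2 : ∫ x, (cosh x)⁻¹ ^ 2 = 2 := by
  rw [integral_of_hasDerivAt_of_tendsto tanh_deriv int_sech2 tendsto_tanh_bot tendsto_tanh_top]
  norm_num

/-- `log cosh a - log cosh (a - u) → u`. -/
lemma log_top (u : ℝ) :
    Tendsto (fun a => log (cosh a) - log (cosh (a - u))) atTop (𝓝 u) := by
  have h1 : ∀ a, log (cosh a) - log (cosh (a - u)) =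
      u + (log (1 + exp (-(2 * a))) - log (1 + exp (-(2 * (a - u))))) := by
    intro a
    have h2 : ∀ t : ℝ, log (cosh t) = t + log (1 + exp (-(2 * t))) - log 2 := by
      intro t
      have h3 : cosh t = exp t * (1 + exp (-(2 * t))) / 2 := by
        rw [cosh_eq]
        have h4 : exp (-(2 * t)) = exp (-t) * exp (-t) := by rw [← exp_add]; ring_nf
        have h5 : exp (-t) = (exp t)⁻¹ := exp_neg t
        have h6 := exp_pos t
        rw [h4, h5]
        field_simp
      rw [h3, log_div (by positivity) (by norm_num), log_mul (by positivity) (by positivity),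
        log_exp]
    rw [h2, h2]
    ring
  simp only [h1]
  have h3 : ∀ c : ℝ, Tendsto (fun a : ℝ => log (1 + exp (-(2 * (a - c))))) atTop (𝓝 0) := by
    intro c
    have h4 : Tendsto (fun a : ℝ => 1 + exp (-(2 * (a - c)))) atTop (𝓝 (1 + 0)) := by
      refine tendsto_const_nhds.add (tendsto_exp_atBot.comp ?_)
      refine tendsto_neg_atTop_atBot.comp ?_
      refine Tendsto.const_mul_atTop (by norm_num) ?_
      exact tendsto_atTop_add_const_right _ _ tendsto_id
    have h5 := (continuousAt_log (x := 1 + 0) (by norm_num)).tendsto.comp h4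
    simp only [add_zero, log_one] at h5
    exact h5
  have h4 := (h3 0).sub (h3 u)
  have h5 := h4.const_add u
  simpa using h5

lemma log_bot (u : ℝ) :
    Tendsto (fun a => log (cosh a) - log (cosh (a - u))) atBot (𝓝 (-u)) := by
  have h1 := (log_top (-u)).comp tendsto_neg_atBot_atTop
  refine h1.congr fun a => ?_
  simp only [Function.comp]
  rw [cosh_neg, show -a - -u = -(a - u) by ring, cosh_neg]

lemma log_cosh_deriv (x : ℝ) : HasDerivAt (fun x => log (cosh x)) (tanh x) x := by
  have h := (hasDerivAt_cosh x).log (cosh_pos x).ne'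
  rwa [← tanh_eq_sinh_div_cosh] at h

lemma tanh_sub_tanh (a u : ℝ) :
    tanh a - tanh (a - u) = sinh u * ((cosh a)⁻¹ * (cosh (a - u))⁻¹) := by
  rw [tanh_eq_sinh_div_cosh, tanh_eq_sinh_div_cosh]
  have h1 := (cosh_pos a).ne'
  have h2 := (cosh_pos (a - u)).ne'
  have h3 : sinh u = sinh a * cosh (a - u) - cosh a * sinh (a - u) := by
    rw [← sinh_sub]; ring_nf
  rw [h3]
  field_simp

lemma int_ss (u : ℝ) : Integrable (fun a => (cosh a)⁻¹ * (cosh (a - u))⁻¹) := by
  have hc : Continuous fun a => (cosh a)⁻¹ * (cosh (a - u))⁻¹ :=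
    (continuous_cosh.inv₀ fun x => (cosh_pos x).ne').mul
      ((continuous_cosh.comp (continuous_sub_right u)).inv₀ fun x => (cosh_pos _).ne')
  refine int_sech.mono' hc.aestronglyMeasurable (Eventually.of_forall fun x => ?_)
  have h2 : 0 < (cosh x)⁻¹ := inv_pos.2 (cosh_pos x)
  have h3 : (cosh (x - u))⁻¹ ≤ 1 := inv_le_one_of_one_le₀ (one_le_cosh _)
  have h4 : 0 < (cosh (x - u))⁻¹ := inv_pos.2 (cosh_pos _)
  rw [Real.norm_eq_abs, abs_of_pos (by positivity)]
  nlinarith

lemma sinh_mul_ss (u : ℝ) : sinh u * ∫ a, (cosh a)⁻¹ * (cosh (a - u))⁻¹ = 2 * u := by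
  rw [← integral_const_mul]
  have h1 : ∀ a, HasDerivAt (fun a => log (cosh a) - log (cosh (a - u)))
      (sinh u * ((cosh a)⁻¹ * (cosh (a - u))⁻¹)) a := by
    intro a
    rw [← tanh_sub_tanh]
    exact (log_cosh_deriv a).sub ((log_cosh_deriv (a - u)).comp_sub_const a u)
  rw [integral_of_hasDerivAt_of_tendsto h1 ((int_ss u).const_mul _) (log_bot u) (log_top u)]
  ring

lemma ss_eq (u : ℝ) : ∫ a, (cosh a)⁻¹ * (cosh (a - u))⁻¹ = 2 * sh u := by
  by_cases h : u = 0
  · subst h
    simp only [sub_zero, sh, if_true, ← pow_two]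
    rw [integral_sech2]
    norm_num
  · have h1 := sinh_mul_ss u
    have h2 := sinh_ne h
    rw [sh, if_neg h, ← mul_div_assoc, eq_div_iff h2, mul_comm]
    exact h1

lemma sh_nonneg (u : ℝ) : 0 ≤ sh u := by
  have h := ss_eq u
  have h2 : 0 ≤ ∫ a, (cosh a)⁻¹ * (cosh (a - u))⁻¹ := by
    refine integral_nonneg fun a => ?_
    have h2 := cosh_pos a
    have h3 := cosh_pos (a - u)
    positivity
  linarith

/-- The integral of `x / sinh x`. -/
lemma int_sh_aux : Integrable (fun u => 2 * sh u) ∧ ∫ u, 2 * sh u = π ^ 2 := by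
  have h1 := int_sech.integrable_convolution (ContinuousLinearMap.mul ℝ ℝ) int_sech
  have h2 := integral_convolution (ContinuousLinearMap.mul ℝ ℝ) int_sech int_sech
    (μ := volume) (ν := volume)
  have h3 : (MeasureTheory.convolution (fun x => (cosh x)⁻¹) (fun x => (cosh x)⁻¹)
      (ContinuousLinearMap.mul ℝ ℝ) volume : ℝ → ℝ) = fun u => 2 * sh u := by
    funext u
    rw [← ss_eq, convolution_def]
    congr 1
    funext a
    simp only [ContinuousLinearMap.mul_apply']
    rw [show u - a = -(a - u) by ring, cosh_neg]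
  rw [h3] at h1 h2
  refine ⟨h1, ?_⟩
  rw [h2]
  simp only [ContinuousLinearMap.mul_apply', integral_sech]
  ring

lemma int_sh : Integrable sh := by
  have h := int_sh_aux.1.const_mul (1 / 2)
  refine h.congr (Eventually.of_forall fun u => ?_)
  simp only
  ring

lemma integral_sh : ∫ u, sh u = π ^ 2 / 2 := by
  have h := int_sh_aux.2
  rw [integral_const_mul] at h
  linarith

lemma sh_even (u : ℝ) : sh (-u) = sh u := by
  unfold sh
  by_cases h : u = 0
  · simp [h]
  · rw [if_neg h, if_neg (neg_ne_zero.2 h), sinh_neg, neg_div_neg_eq]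

lemma sh_abs (u : ℝ) : sh |u| = sh u := by
  rcases abs_choice u with h | h
  · rw [h]
  · rw [h, sh_even]

lemma integral_sh_Ioi : ∫ u in Ioi (0:ℝ), sh u = π ^ 2 / 4 := by
  have h1 := integral_comp_abs (f := sh)
  simp only [sh_abs, integral_sh] at h1
  linarith

end Pool.Agent.Q235.LT
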