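import Pool.Agent.Q235.LT.CoreA

/-!
# Slices of the comparison functions
-/

set_option autoImplicit false

open MeasureTheory Set Filter Topology Real
open scoped Matrix

namespace Pool.Agent.Q235.LT

open LTd

lemma mp_cons (m : ℕ) : MeasurePreserving
    (fun p : ℝ × (Fin m → ℝ) => (Fin.cons p.1 p.2 : Fin (m + 1) → ℝ))
    ((volume : Measure ℝ).prod (volume : Measure (Fin m → ℝ))) volume := by
  have h := (volume_preserving_piFinSuccAbove (fun _ : Fin (m + 1) => ℝ) 0).symm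
  have h1 : (fun p : ℝ × (Fin m → ℝ) => (Fin.cons p.1 p.2 : Fin (m + 1) → ℝ)) =
      (MeasurableEquiv.piFinSuccAbove (fun _ : Fin (m + 1) => ℝ) 0).symm := by
    funext p
    show (Fin.cons p.1 p.2 : Fin (m + 1) → ℝ) =
      (Fin.insertNth (α := fun _ => ℝ) 0 p.1 p.2 : Fin (m + 1) → ℝ)
    rw [Fin.insertNth_zero']
  rw [h1, ← Measure.volume_eq_prod]
  exact h

lemma me_cons (m : ℕ) : MeasurableEmbedding
    (fun p : ℝ × (Fin m → ℝ) => (Fin.cons p.1 p.2 : Fin (m + 1) → ℝ)) := by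
  have h1 : (fun p : ℝ × (Fin m → ℝ) => (Fin.cons p.1 p.2 : Fin (m + 1) → ℝ)) =
      (MeasurableEquiv.piFinSuccAbove (fun _ : Fin (m + 1) => ℝ) 0).symm := by
    funext p
    show (Fin.cons p.1 p.2 : Fin (m + 1) → ℝ) =
      (Fin.insertNth (α := fun _ => ℝ) 0 p.1 p.2 : Fin (m + 1) → ℝ)
    rw [Fin.insertNth_zero']
  rw [h1]
  exact MeasurableEquiv.measurableEmbedding _

lemma ae_slice {m : ℕ} {P : (Fin (m + 1) → ℝ) → Prop} (h : ∀ᵐ z, P z) :
    ∀ᵐ x : ℝ, ∀ᵐ y : Fin m → ℝ, P (Fin.cons x y) := by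
  have h1 := (mp_cons m).quasiMeasurePreserving.ae h
  exact Measure.ae_ae_of_ae_prod h1

lemma aesm_slice {m : ℕ} {f : (Fin (m + 1) → ℝ) → ℝ} (hf : AEStronglyMeasurable f volume) :
    ∀ᵐ x : ℝ, AEStronglyMeasurable (fun y : Fin m → ℝ => f (Fin.cons x y)) volume := by
  have h1 := hf.comp_measurePreserving (mp_cons m)
  exact h1.prodMk_left

lemma int_slice {m : ℕ} {f : (Fin (m + 1) → ℝ) → ℝ} (hf : Integrable f) :
    Integrable (fun x : ℝ => ∫ y : Fin m → ℝ, f (Fin.cons x y)) ∧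
    (∫ x : ℝ, ∫ y : Fin m → ℝ, f (Fin.cons x y)) = ∫ z, f z ∧
    ∀ᵐ x : ℝ, Integrable (fun y : Fin m → ℝ => f (Fin.cons x y)) := by
  have h1 : Integrable (fun p : ℝ × (Fin m → ℝ) => f (Fin.cons p.1 p.2))
      ((volume : Measure ℝ).prod (volume : Measure (Fin m → ℝ))) :=
    (mp_cons m).integrable_comp_of_integrable hf
  refine ⟨h1.integral_prod_left, ?_, h1.prod_right_ae⟩
  rw [← (mp_cons m).integral_comp (me_cons m), integral_prod _ h1]

lemma l2_slice {m : ℕ} {f : (Fin (m + 1) → ℝ) → ℝ} (hf : MemLp f 2 volume) :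
    ∀ᵐ x : ℝ, MemLp (fun y : Fin m → ℝ => f (Fin.cons x y)) 2 volume := by
  have h1 : Integrable (fun z => f z ^ 2) := hf.integrable_sq
  filter_upwards [(int_slice h1).2.2, aesm_slice hf.1] with x h2 h3
  exact (memLp_two_iff_integrable_sq h3).2 h2

lemma der_slice {m : ℕ} {f : (Fin (m + 1) → ℝ) → ℝ} (hf : ContDiff ℝ 1 f) (t : ℝ)
    (y : Fin m → ℝ) : HasDerivAt (fun t : ℝ => f (Fin.cons t y : Fin (m + 1) → ℝ))
      (pd 0 f (Fin.cons t y : Fin (m + 1) → ℝ)) t := by
  have h1 : HasDerivAt (fun t : ℝ => (Fin.cons t y : Fin (m + 1) → ℝ))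
      (Pi.single 0 1 : Fin (m + 1) → ℝ) t := by
    rw [hasDerivAt_pi]
    intro i
    refine Fin.cases ?_ (fun j => ?_) i
    · simpa using hasDerivAt_id' (𝕜 := ℝ) t
    · simpa using hasDerivAt_const t (y j)
  have h2 : HasFDerivAt f (fderiv ℝ f (Fin.cons t y : Fin (m + 1) → ℝ))
      (Fin.cons t y : Fin (m + 1) → ℝ) :=
    (hf.differentiable (by norm_num)).differentiableAt.hasFDerivAt
  exact h2.comp_hasDerivAt t h1

/-- The longitudinal derivative of a function at almost every point. -/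
def LDer {m : ℕ} (f h : (Fin (m + 1) → ℝ) → ℝ) : Prop :=
  ∀ᵐ z, HasDerivAt (fun t => f (Function.update z 0 t)) (h z) (z 0)

/-- The inequality with the semiclassical constant in dimension one for slices. -/
theorem slice_err {m n M : ℕ} (w : Fin n → (Fin (m + 1) → ℝ) → ℝ) (hw : ∀ i, ContDiff ℝ 1 (w i))
    (hc : ∀ i, HasCompactSupport (w i))
    (hG : ∀ v : Fin n → ℝ, ∫ x, (∑ i, v i * w i x) ^ 2 ≤ ∑ i, v i ^ 2)
    (g h : Fin M → (Fin (m + 1) → ℝ) → ℝ) (hg : ∀ j, AEStronglyMeasurable (g j) volume)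
    (hh : ∀ j, MemLp (h j) 2 volume) (hd : ∀ j, LDer (g j) (h j))
    (hs : ∀ z z' : Fin (m + 1) → ℝ, z 0 = z' 0 →
      ∑ j, g j z * g j z' = ∑ i, w i z * w i z') :
    π ^ 2 / 3 * ∫ x, (RS w x * RS w x * RS w x).trace ≤
      (∫ x, (QS w x).trace) + 3 * ∑ j, ∫ z, h j z ^ 2 := by
  have hwc : ∀ i, Continuous (w i) := fun i => (hw i).continuous
  have hsys := slice_sys w hw hc
  have hh2 : ∀ j, Integrable (fun z => h j z ^ 2) := fun j => (hh j).integrable_sq
  have hWi : Integrable (fun x : ℝ => ∑ j, ∫ y : Fin m → ℝ, h j (Fin.cons x y) ^ 2) :=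
    integrable_finsetSum _ fun j _ => (int_slice (hh2 j)).1
  have hWv : ∫ x : ℝ, ∑ j, ∫ y : Fin m → ℝ, h j (Fin.cons x y) ^ 2 = ∑ j, ∫ z, h j z ^ 2 := by
    rw [integral_finsetSum _ fun j _ => (int_slice (hh2 j)).1]
    exact Finset.sum_congr rfl fun j _ => (int_slice (hh2 j)).2.1
  rw [← hWv]
  refine block3 hsys (PSD_one_sub_tot' w hwc hc hG) hWi ?_
  have a1 : ∀ᵐ x : ℝ, ∀ j, MemLp (fun y : Fin m → ℝ => h j (Fin.cons x y)) 2 volume :=
    ae_all_iff.2 fun j => l2_slice (hh j)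
  have a2 : ∀ᵐ x : ℝ, ∀ j, AEStronglyMeasurable (fun y : Fin m → ℝ => g j (Fin.cons x y)) volume :=
    ae_all_iff.2 fun j => aesm_slice (hg j)
  have a3 : ∀ᵐ x : ℝ, ∀ j, ∀ᵐ y : Fin m → ℝ,
      HasDerivAt (fun t => g j (Fin.cons t y)) (h j (Fin.cons x y)) x := by
    refine ae_all_iff.2 fun j => ?_
    filter_upwards [ae_slice (hd j)] with x hx
    filter_upwards [hx] with y hy
    have e1 : (fun t => g j (Function.update (Fin.cons x y : Fin (m + 1) → ℝ) 0 t)) =
        fun t => g j (Fin.cons t y) := by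
      funext t
      rw [Fin.update_cons_zero]
    rw [e1, Fin.cons_zero] at hy
    exact hy
  filter_upwards [a1, a2, a3] with x b1 b2 b3
  have cw2 : ∀ i, MemLp (fun y : Fin m → ℝ => w i (Fin.cons x y)) 2 volume := fun i =>
    ((slice_cont (hwc i) (hc i)).2.1 x).memLp_of_hasCompactSupport
      ((slice_cont (hwc i) (hc i)).2.2.1 x)
  have cw2' : ∀ i, MemLp (fun y : Fin m → ℝ => pd 0 (w i) (Fin.cons x y)) 2 volume := fun i =>
    ((slice_cont (pd_basic (hw i) (hc i) 0).1 (pd_basic (hw i) (hc i) 0).2).2.1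
      x).memLp_of_hasCompactSupport
      ((slice_cont (pd_basic (hw i) (hc i) 0).1 (pd_basic (hw i) (hc i) 0).2).2.2.1 x)
  have cg2 : ∀ j, MemLp (fun y : Fin m → ℝ => g j (Fin.cons x y)) 2 volume := by
    intro j
    refine (memLp_two_iff_integrable_sq (b2 j)).2 ?_
    have i1 : Integrable (fun y : Fin m → ℝ => ∑ i, w i (Fin.cons x y) ^ 2) :=
      integrable_finsetSum _ fun i _ => (cw2 i).integrable_sq
    refine i1.mono' ((b2 j).pow 2) (Eventually.of_forall fun y => ?_)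
    rw [Real.norm_eq_abs, abs_of_nonneg (sq_nonneg _)]
    have h1 := hs (Fin.cons x y) (Fin.cons x y) rfl
    have h2 : g j (Fin.cons x y) ^ 2 ≤ ∑ j, g j (Fin.cons x y) * g j (Fin.cons x y) := by
      rw [pow_two]
      exact Finset.single_le_sum (f := fun j => g j (Fin.cons x y) * g j (Fin.cons x y))
        (fun a _ => mul_self_nonneg _) (Finset.mem_univ j)
    rw [h1] at h2
    refine h2.trans (le_of_eq ?_)
    exact Finset.sum_congr rfl fun i _ => (pow_two _).symm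
  have key := err_at (μ := (volume : Measure (Fin m → ℝ))) (fun i y => w i (Fin.cons x y))
    (fun i y => pd 0 (w i) (Fin.cons x y)) (fun j y => g j (Fin.cons x y))
    (fun j y => h j (Fin.cons x y)) cw2 cw2' cg2 b1
    (Eventually.of_forall fun z => hs (Fin.cons x z.1) (Fin.cons x z.2) rfl) (by
      have c1 : ∀ᵐ y : Fin m → ℝ, ∀ j, HasDerivAt (fun t => g j (Fin.cons t y))
          (h j (Fin.cons x y)) x := ae_all_iff.2 b3
      have c2 := (Measure.quasiMeasurePreserving_fst (μ := (volume : Measure (Fin m → ℝ)))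
        (ν := (volume : Measure (Fin m → ℝ)))).ae c1
      have c3 := (Measure.quasiMeasurePreserving_snd (μ := (volume : Measure (Fin m → ℝ)))
        (ν := (volume : Measure (Fin m → ℝ)))).ae c1
      filter_upwards [c2, c3] with z d1 d2
      have e1 : HasDerivAt (fun t => ∑ j, g j (Fin.cons t z.1) * g j (Fin.cons t z.2))
          (∑ j, (h j (Fin.cons x z.1) * g j (Fin.cons x z.2) +
            g j (Fin.cons x z.1) * h j (Fin.cons x z.2))) x :=
        HasDerivAt.fun_sum fun j _ => (d1 j).mul (d2 j)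
      have e2 : HasDerivAt (fun t => ∑ i, w i (Fin.cons t z.1) * w i (Fin.cons t z.2))
          (∑ i, (pd 0 (w i) (Fin.cons x z.1) * w i (Fin.cons x z.2) +
            w i (Fin.cons x z.1) * pd 0 (w i) (Fin.cons x z.2))) x :=
        HasDerivAt.fun_sum fun i _ => (der_slice (hw i) x z.1).mul (der_slice (hw i) x z.2)
      have e3 : (fun t => ∑ j, g j (Fin.cons t z.1) * g j (Fin.cons t z.2)) =
          fun t => ∑ i, w i (Fin.cons t z.1) * w i (Fin.cons t z.2) := by
        funext t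
        exact hs _ _ rfl
      rw [e3] at e1
      have e4 := e1.unique e2
      have e5 : ∀ (a b c d : ℝ), a * b + c * d = c * d + a * b := fun a b c d => add_comm _ _
      simp only [add_comm (g _ (Fin.cons x z.1) * h _ (Fin.cons x z.2)),
        add_comm (w _ (Fin.cons x z.1) * pd 0 (w _) (Fin.cons x z.2))]
      exact e4)
  exact key

end Pool.Agent.Q235.LT
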