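import Pool.Agent.Q235.LT.Approx

/-!
# The weak gradient vanishes on the zero set
-/

set_option autoImplicit false

open MeasureTheory Set Filter Topology Real
open scoped Matrix Convolution ContDiff ENNReal

namespace Pool.Agent.Q235.LT

open LTd

/-- Fatou's lemma for real functions. -/
lemma fatou_ev {α : Type*} [MeasurableSpace α] {μ : Measure α} {S : ℕ → α → ℝ} {T : α → ℝ}
    (hn : ∀ k x, 0 ≤ S k x) (hi : ∀ k, Integrable (S k) μ) (hT : Integrable T μ)
    (hT0 : ∀ x, 0 ≤ T x)
    (hl : ∀ᵐ x ∂μ, ∀ c < T x, ∀ᶠ k in atTop, c < S k x) {δ : ℝ} (hδ : 0 < δ) :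
    ∀ᶠ k in atTop, (∫ x, T x ∂μ) - δ < ∫ x, S k x ∂μ := by
  have h1 : ENNReal.ofReal (∫ x, T x ∂μ) ≤
      liminf (fun k => ENNReal.ofReal (∫ x, S k x ∂μ)) atTop := by
    calc ENNReal.ofReal (∫ x, T x ∂μ) = ∫⁻ x, ENNReal.ofReal (T x) ∂μ :=
          ofReal_integral_eq_lintegral_ofReal hT (Eventually.of_forall hT0)
      _ ≤ ∫⁻ x, liminf (fun k => ENNReal.ofReal (S k x)) atTop ∂μ := by
          refine lintegral_mono_ae ?_
          filter_upwards [hl] with x hx
          refine le_of_forall_lt fun c hc => ?_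
          have hc' : c.toReal < T x := by
            have h2 := (ENNReal.toReal_lt_toReal (ne_top_of_lt hc) ENNReal.ofReal_ne_top).2 hc
            rwa [ENNReal.toReal_ofReal (hT0 x)] at h2
          obtain ⟨e, he1, he2⟩ := exists_between hc'
          have he0 : 0 ≤ e := ENNReal.toReal_nonneg.trans he1.le
          have h3 : c < ENNReal.ofReal e := by
            rw [← ENNReal.ofReal_toReal (ne_top_of_lt hc)]
            exact (ENNReal.ofReal_lt_ofReal_iff_of_nonneg ENNReal.toReal_nonneg).2 he1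
          refine lt_of_lt_of_le h3 ?_
          refine le_liminf_of_le (by isBoundedDefault) ?_
          filter_upwards [hx e he2] with k hk
          exact ENNReal.ofReal_le_ofReal hk.le
      _ ≤ liminf (fun k => ∫⁻ x, ENNReal.ofReal (S k x) ∂μ) atTop :=
          lintegral_liminf_le' fun k => (hi k).1.aemeasurable.ennreal_ofReal
      _ = liminf (fun k => ENNReal.ofReal (∫ x, S k x ∂μ)) atTop := by
          congr 1
          funext k
          exact (ofReal_integral_eq_lintegral_ofReal (hi k) (Eventually.of_forall (hn k))).symm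
  by_cases hc : (∫ x, T x ∂μ) - δ < 0
  · exact Eventually.of_forall fun k => lt_of_lt_of_le hc (integral_nonneg (hn k))
  · push Not at hc
    have h2 : ENNReal.ofReal ((∫ x, T x ∂μ) - δ) < ENNReal.ofReal (∫ x, T x ∂μ) :=
      (ENNReal.ofReal_lt_ofReal_iff (by linarith)).2 (by linarith)
    have h3 := eventually_lt_of_lt_liminf (h2.trans_le h1)
    filter_upwards [h3] with k hk
    exact (ENNReal.ofReal_lt_ofReal_iff_of_nonneg hc).1 hk

/-- Integration by parts against `ε arctan (F / ε)`. -/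
lemma ibp_arctan {d : ℕ} {F φ : (Fin d → ℝ) → ℝ} (hF : ContDiff ℝ 1 F) (hFc : HasCompactSupport F)
    (hφ : ContDiff ℝ 1 φ) (hφc : HasCompactSupport φ) (j : Fin d) {ε : ℝ} (hε : 0 < ε) :
    ∫ x, pd j F x * ((1 + (F x / ε) ^ 2)⁻¹ * φ x) =
      - ∫ x, (ε * Real.arctan (F x / ε)) * pd j φ x := by
  have h1 : ContDiff ℝ 1 (fun x => ε * Real.arctan (F x / ε)) :=
    contDiff_const.mul (Real.contDiff_arctan.comp (hF.div_const ε))
  have h2 : HasCompactSupport (fun x => ε * Real.arctan (F x / ε)) :=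
    hFc.comp_left (g := fun s => ε * Real.arctan (s / ε)) (by simp)
  have h3 : ∀ x, fderiv ℝ (fun x => ε * Real.arctan (F x / ε)) x (Pi.single j 1) =
      pd j F x * (1 + (F x / ε) ^ 2)⁻¹ := by
    intro x
    have e1 : HasFDerivAt F (fderiv ℝ F x) x :=
      (hF.differentiable (by norm_num)).differentiableAt.hasFDerivAt
    have e2 : HasDerivAt (fun s : ℝ => ε * Real.arctan (s / ε))
        (ε * ((1 / (1 + (F x / ε) ^ 2)) * (1 / ε))) (F x) := by
      have e3 : HasDerivAt (fun s : ℝ => s / ε) (1 / ε) (F x) :=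
        (hasDerivAt_id' (F x)).div_const ε
      exact (e3.arctan).const_mul ε
    have e4 := e2.comp_hasFDerivAt x e1
    have e5 : HasFDerivAt (fun x => ε * Real.arctan (F x / ε))
      ((ε * ((1 / (1 + (F x / ε) ^ 2)) * (1 / ε))) • fderiv ℝ F x) x := e4
    rw [e5.fderiv]
    show ε * ((1 / (1 + (F x / ε) ^ 2)) * (1 / ε)) * fderiv ℝ F x (Pi.single j 1) = _
    unfold pd
    field_simp
  have c1 : Continuous (fun x => fderiv ℝ (fun x => ε * Real.arctan (F x / ε)) x (Pi.single j 1)) :=
    (h1.continuous_fderiv (by norm_num)).clm_apply continuous_const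
  have c2 : Continuous (fun x => fderiv ℝ φ x (Pi.single j 1)) :=
    (hφ.continuous_fderiv (by norm_num)).clm_apply continuous_const
  have h4 := integral_mul_fderiv_eq_neg_fderiv_mul_of_integrable (μ := volume)
    (f := fun x => ε * Real.arctan (F x / ε)) (g := φ) (v := Pi.single j 1)
    ((c1.mul hφ.continuous).integrable_of_hasCompactSupport hφc.mul_left)
    ((h1.continuous.mul c2).integrable_of_hasCompactSupport h2.mul_right)
    ((h1.continuous.mul hφ.continuous).integrable_of_hasCompactSupport h2.mul_right)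
    (fun x _ => (h1.differentiable (by norm_num)).differentiableAt)
    (fun x _ => (hφ.differentiable (by norm_num)).differentiableAt)
  have h5 : ∫ x, pd j F x * ((1 + (F x / ε) ^ 2)⁻¹ * φ x) =
      ∫ x, fderiv ℝ (fun x => ε * Real.arctan (F x / ε)) x (Pi.single j 1) * φ x := by
    refine integral_congr_ae (Eventually.of_forall fun x => ?_)
    beta_reduce
    rw [h3 x]
    ring
  have h6 : ∫ x, (ε * Real.arctan (F x / ε)) * pd j φ x =
      ∫ x, (ε * Real.arctan (F x / ε)) * fderiv ℝ φ x (Pi.single j 1) := rfl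
  rw [h5, h6, h4, neg_neg]

lemma int3 {α : Type*} [MeasurableSpace α] {μ : Measure α} {p q r : α → ℝ} (hp : Integrable p μ)
    (hq : Integrable q μ) (hr : Integrable r μ) :
    ∫ x, (p x + 2 * q x + r x) ∂μ = (∫ x, p x ∂μ) + 2 * (∫ x, q x ∂μ) + ∫ x, r x ∂μ := by
  have h1 : ∫ x, (p x + 2 * q x) ∂μ = (∫ x, p x ∂μ) + 2 * (∫ x, q x ∂μ) := by
    rw [integral_add hp (hq.const_mul 2), integral_const_mul]
  rw [integral_add (f := fun x => p x + 2 * q x) (hp.add (hq.const_mul 2)) hr, h1]

lemma zero_key {d : ℕ} {f : (Fin d → ℝ) → ℝ} {g : Fin d → (Fin d → ℝ) → ℝ} (hf : WGrad f g)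
    {φ : (Fin d → ℝ) → ℝ} (hφ : ContDiff ℝ 1 φ) (hφc : HasCompactSupport φ) (j : Fin d) {ε : ℝ}
    (hε : 0 < ε) :
    ∫ x, g j x * ((1 + (f x / ε) ^ 2)⁻¹ * φ x) ≤ ε * (π / 2) * ∫ x, |pd j φ x| := by
  obtain ⟨F, hF1, hF2, -, hF4, hF5, hF6⟩ := H_approx2 (fun _ : Fin 1 => f) (fun _ => g)
    (fun _ => hf)
  simp only [Finset.univ_unique, Fin.default_eq_zero, Fin.isValue, Finset.sum_singleton] at hF6
  set b : ℝ → ℝ := fun s => (1 + (s / ε) ^ 2)⁻¹ with hb
  have hbc : Continuous b := by
    rw [hb]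
    refine Continuous.inv₀ (by fun_prop) fun s => ?_
    positivity
  have hb0 : ∀ s, 0 ≤ b s := fun s => by rw [hb]; positivity
  have hb1 : ∀ s, b s ≤ 1 := fun s => by
    rw [hb]
    exact inv_le_one_of_one_le₀ (by nlinarith [sq_nonneg (s / ε)])
  have hφ2 : MemLp φ 2 volume := hφ.continuous.memLp_of_hasCompactSupport hφc
  have hbφ : ∀ h : (Fin d → ℝ) → ℝ, AEStronglyMeasurable h volume →
      MemLp (fun x => b (h x) * φ x) 2 volume := by
    intro h hh
    refine hφ2.of_le ((hbc.comp_aestronglyMeasurable hh).mul hφ.continuous.aestronglyMeasurable)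
      (Eventually.of_forall fun x => ?_)
    rw [norm_mul, Real.norm_of_nonneg (hb0 _)]
    exact mul_le_of_le_one_left (norm_nonneg _) (hb1 _)
  have hpF : ∀ k i, Continuous (pd i (F k 0)) := fun k i => (pd_basic (hF1 k 0) (hF2 k 0) i).1
  have hpF' : ∀ k i, MemLp (pd i (F k 0)) 2 volume := fun k i =>
    (hpF k i).memLp_of_hasCompactSupport (pd_basic (hF1 k 0) (hF2 k 0) i).2
  have hFm : ∀ k, AEStronglyMeasurable (F k 0) volume := fun k =>
    (hF1 k 0).continuous.aestronglyMeasurable
  set S : ℕ → (Fin d → ℝ) → ℝ := fun k x => (∑ i, pd i (F k 0) x ^ 2) +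
    2 * (pd j (F k 0) x * (b (F k 0 x) * φ x)) + (b (F k 0 x) * φ x) ^ 2 with hS
  set T : (Fin d → ℝ) → ℝ := fun x => (∑ i, g i x ^ 2) +
    2 * (g j x * (b (f x) * φ x)) + (b (f x) * φ x) ^ 2 with hT
  have iS1 : ∀ k, Integrable (fun x => ∑ i, pd i (F k 0) x ^ 2) := fun k =>
    integrable_finsetSum _ fun i _ => (hpF' k i).integrable_sq
  have iS2 : ∀ k, Integrable (fun x => pd j (F k 0) x * (b (F k 0 x) * φ x)) := fun k =>
    (hpF' k j).integrable_mul (hbφ _ (hFm k))
  have iS3 : ∀ k, Integrable (fun x => (b (F k 0 x) * φ x) ^ 2) := fun k =>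
    (hbφ _ (hFm k)).integrable_sq
  have iT1 : Integrable (fun x => ∑ i, g i x ^ 2) :=
    integrable_finsetSum _ fun i _ => (hf.g2 i).integrable_sq
  have iT2 : Integrable (fun x => g j x * (b (f x) * φ x)) :=
    (hf.g2 j).integrable_mul (hbφ _ hf.f2.1)
  have iT3 : Integrable (fun x => (b (f x) * φ x) ^ 2) := (hbφ _ hf.f2.1).integrable_sq
  have hsq : ∀ (a : Fin d → ℝ) (c : ℝ), 0 ≤ (∑ i, a i ^ 2) + 2 * (a j * c) + c ^ 2 := by
    intro a c
    have h1 : a j ^ 2 ≤ ∑ i, a i ^ 2 :=
      Finset.single_le_sum (f := fun i => a i ^ 2) (fun i _ => sq_nonneg _) (Finset.mem_univ j)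
    nlinarith [sq_nonneg (a j + c)]
  have eS : ∀ k, ∫ x, S k x = (∫ x, ∑ i, pd i (F k 0) x ^ 2) +
      2 * (∫ x, pd j (F k 0) x * (b (F k 0 x) * φ x)) + ∫ x, (b (F k 0 x) * φ x) ^ 2 :=
    fun k => int3 (iS1 k) (iS2 k) (iS3 k)
  have eT : ∫ x, T x = (∫ x, ∑ i, g i x ^ 2) +
      2 * (∫ x, g j x * (b (f x) * φ x)) + ∫ x, (b (f x) * φ x) ^ 2 := int3 iT1 iT2 iT3
  have hlim : ∀ᵐ x, Tendsto (fun k => S k x) atTop (𝓝 (T x)) := by
    filter_upwards [hF4, hF5] with x h4 h5
    have c1 : Tendsto (fun k => b (F k 0 x) * φ x) atTop (𝓝 (b (f x) * φ x)) :=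
      ((hbc.tendsto _).comp (h4 0)).mul_const _
    exact ((tendsto_finsetSum _ fun i _ => (h5 0 i).pow 2).add
      (((h5 0 j).mul c1).const_mul 2)).add (c1.pow 2)
  have hdom : Tendsto (fun k => ∫ x, (b (F k 0 x) * φ x) ^ 2) atTop
      (𝓝 (∫ x, (b (f x) * φ x) ^ 2)) := by
    refine tendsto_integral_of_dominated_convergence (fun x => φ x ^ 2)
      (fun k => (iS3 k).1) hφ2.integrable_sq (fun k => Eventually.of_forall fun x => ?_) ?_
    · rw [Real.norm_of_nonneg (sq_nonneg _), mul_pow]
      exact mul_le_of_le_one_left (sq_nonneg _) (pow_le_one₀ (hb0 _) (hb1 _))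
    · filter_upwards [hF4] with x h4
      exact (((hbc.tendsto _).comp (h4 0)).mul_const _).pow 2
  have hB : ∀ k, ∫ x, pd j (F k 0) x * (b (F k 0 x) * φ x) ≤
      ε * (π / 2) * ∫ x, |pd j φ x| := by
    intro k
    rw [hb]
    beta_reduce
    rw [ibp_arctan (hF1 k 0) (hF2 k 0) hφ hφc j hε]
    have h1 : ‖∫ x, (ε * Real.arctan (F k 0 x / ε)) * pd j φ x‖ ≤
        ∫ x, ε * (π / 2) * |pd j φ x| := by
      refine norm_integral_le_of_norm_le (((pd_basic hφ hφc j).1.abs.integrable_of_hasCompactSupport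
        ((pd_basic hφ hφc j).2.comp_left abs_zero)).const_mul _) (Eventually.of_forall fun x => ?_)
      rw [norm_mul, norm_mul, Real.norm_of_nonneg hε.le, Real.norm_eq_abs, Real.norm_eq_abs]
      have h2 : |Real.arctan (F k 0 x / ε)| ≤ π / 2 :=
        abs_le.2 ⟨(Real.neg_pi_div_two_lt_arctan _).le, (Real.arctan_lt_pi_div_two _).le⟩
      gcongr
    rw [integral_const_mul, Real.norm_eq_abs] at h1
    exact (neg_le_abs _).trans h1
  refine le_of_forall_pos_le_add fun δ hδ => ?_
  have f1 := fatou_ev (μ := volume) (fun k x => hsq _ _)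
    (fun k => ((iS1 k).add ((iS2 k).const_mul 2)).add (iS3 k))
    ((iT1.add (iT2.const_mul 2)).add iT3) (fun x => hsq _ _)
    (hlim.mono fun x hx c hc => hx.eventually_const_lt hc) (half_pos hδ)
  have f2 := hdom.eventually_lt_const (show ∫ x, (b (f x) * φ x) ^ 2 <
    (∫ x, (b (f x) * φ x) ^ 2) + δ / 2 by linarith)
  have f3 := (tendsto_one_div_add_atTop_nhds_zero_nat (𝕜 := ℝ)).eventually_lt_const (half_pos hδ)
  obtain ⟨k, k1, k2, k3⟩ := (f1.and (f2.and f3)).exists
  have k1' : (∫ x, T x) - δ / 2 < ∫ x, S k x := k1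
  rw [eS, eT] at k1'
  have k4 := hF6 k
  have k5 := hB k
  linarith

/-- The weak gradient vanishes almost everywhere on the zero set. -/
theorem zero_set {d : ℕ} {f : (Fin d → ℝ) → ℝ} {g : Fin d → (Fin d → ℝ) → ℝ} (hf : WGrad f g) :
    ∀ᵐ x, f x = 0 → ∀ j, g j x = 0 := by
  have key : ∀ j, ∀ᵐ x, (if f x = 0 then g j x else 0) = 0 := by
    intro j
    set b : ℕ → ℝ → ℝ := fun n s => (1 + (s / (1 / ((n : ℝ) + 1))) ^ 2)⁻¹ with hb
    have hbc : ∀ n, Continuous (b n) := by
      intro n
      rw [hb]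
      refine Continuous.inv₀ (by fun_prop) fun s => ?_
      positivity
    have hb0 : ∀ n s, 0 ≤ b n s := fun n s => by rw [hb]; positivity
    have hb1 : ∀ n s, b n s ≤ 1 := fun n s => by
      rw [hb]
      exact inv_le_one_of_one_le₀ (by nlinarith [sq_nonneg (s / (1 / ((n : ℝ) + 1)))])
    have hbl : ∀ x, Tendsto (fun n => g j x * b n (f x)) atTop
        (𝓝 (if f x = 0 then g j x else 0)) := by
      intro x
      by_cases h0 : f x = 0
      · rw [if_pos h0, h0]
        refine tendsto_const_nhds.congr fun n => ?_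
        simp [hb]
      · rw [if_neg h0]
        have e1 : Tendsto (fun n : ℕ => f x ^ 2 * ((n : ℝ) + 1) ^ 2) atTop atTop := by
          have e2 : Tendsto (fun n : ℕ => (n : ℝ) + 1) atTop atTop :=
            tendsto_atTop_add_const_right _ _ tendsto_natCast_atTop_atTop
          exact (((tendsto_pow_atTop (two_ne_zero)).comp e2).const_mul_atTop (by positivity))
        have e3 : Tendsto (fun n : ℕ => (1 + f x ^ 2 * ((n : ℝ) + 1) ^ 2)⁻¹) atTop (𝓝 0) :=
          tendsto_inv_atTop_zero.comp (tendsto_atTop_add_const_left _ _ e1)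
        have e4 := e3.const_mul (g j x)
        rw [mul_zero] at e4
        refine e4.congr fun n => ?_
        rw [hb]
        beta_reduce
        congr 2
        have : ((n : ℝ) + 1) ≠ 0 := by positivity
        field_simp
    have hm : AEStronglyMeasurable (fun x => if f x = 0 then g j x else 0) volume :=
      aestronglyMeasurable_of_tendsto_ae atTop
        (fun n => (hf.g2 j).1.mul ((hbc n).comp_aestronglyMeasurable hf.f2.1))
        (Eventually.of_forall hbl)
    have hL : MemLp (fun x => if f x = 0 then g j x else 0) 2 volume := by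
      refine (hf.g2 j).of_le hm (Eventually.of_forall fun x => ?_)
      by_cases h0 : f x = 0
      · simp [h0]
      · simp [h0]
    refine ae_eq_zero_of_integral_contDiff_smul_eq_zero (hL.locallyIntegrable (by norm_num)) ?_
    intro φ hφ hφc
    have hφ1 : ContDiff ℝ 1 φ := hφ.of_le (by exact_mod_cast le_top)
    have hφ2 : MemLp φ 2 volume := hφ.continuous.memLp_of_hasCompactSupport hφc
    have hI : Integrable (fun x => g j x * φ x) := (hf.g2 j).integrable_mul hφ2
    have hlim : Tendsto (fun n => ∫ x, g j x * (b n (f x) * φ x)) atTop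
        (𝓝 (∫ x, φ x • (if f x = 0 then g j x else 0))) := by
      refine tendsto_integral_of_dominated_convergence (fun x => ‖g j x * φ x‖) ?_ hI.norm ?_ ?_
      · intro n
        exact (hf.g2 j).1.mul (((hbc n).comp_aestronglyMeasurable hf.f2.1).mul hφ2.1)
      · intro n
        refine Eventually.of_forall fun x => ?_
        rw [norm_mul, norm_mul, norm_mul, Real.norm_of_nonneg (hb0 n _)]
        exact mul_le_mul_of_nonneg_left (mul_le_of_le_one_left (norm_nonneg _) (hb1 n _))
          (norm_nonneg _)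
      · refine Eventually.of_forall fun x => ?_
        have h1 := (hbl x).mul_const (φ x)
        have h2 : (if f x = 0 then g j x else 0) * φ x =
            φ x • (if f x = 0 then g j x else 0) := by
          rw [smul_eq_mul, mul_comm]
        rw [← h2]
        refine h1.congr fun n => ?_
        ring
    have hz : Tendsto (fun n => ∫ x, g j x * (b n (f x) * φ x)) atTop (𝓝 0) := by
      have hB : Tendsto (fun n : ℕ => 1 / ((n : ℝ) + 1) * (π / 2) * ∫ x, |pd j φ x|) atTop
          (𝓝 0) := by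
        have := ((tendsto_one_div_add_atTop_nhds_zero_nat (𝕜 := ℝ)).mul_const (π / 2)).mul_const
          (∫ x, |pd j φ x|)
        simpa using this
      rw [tendsto_zero_iff_norm_tendsto_zero]
      refine squeeze_zero (fun n => norm_nonneg _) (fun n => ?_) hB
      rw [Real.norm_eq_abs, abs_le']
      refine ⟨zero_key hf hφ1 hφc j (by positivity), ?_⟩
      have h1 := zero_key hf (φ := fun x => -φ x) hφ1.neg
        (hφc.comp_left (g := fun t => -t) neg_zero) j (ε := 1 / ((n : ℝ) + 1)) (by positivity)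
      have h2 : ∀ x, |pd j (fun x => -φ x) x| = |pd j φ x| := by
        intro x
        unfold pd
        rw [fderiv_fun_neg]
        simp
      simp only [h2] at h1
      refine le_trans (le_of_eq ?_) h1
      rw [← integral_neg]
      refine integral_congr_ae (Eventually.of_forall fun x => ?_)
      simp [hb]
    exact tendsto_nhds_unique hlim hz
  filter_upwards [ae_all_iff.2 key] with x hx h0 j
  have := hx j
  rwa [if_pos h0] at this

end Pool.Agent.Q235.LT
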